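import Pool.Agent.TH964.HC.En
import Pool.Agent.TH964.FP.Body

set_option autoImplicit false

/-! Transversals in products of a Latin hypercube with the additive group of a finite field. -/

namespace TH964.HC

open Finset TH964.FP

theorem exists_reps {F : Type} [Field F] (G : Subgroup Fˣ) (hG : G ≠ ⊥) {d : ℕ}
    (q : Fin d → Fˣ ⧸ G) : ∃ v : Fin d → Fˣ, (∀ k, ((v k : Fˣ) : Fˣ ⧸ G) = q k) ∧
      (1 + ∑ k, ((v k : Fˣ) : F)) ≠ 0 := by
  classical
  have h : ∀ k, ∃ v : Fˣ, (v : Fˣ ⧸ G) = q k := fun k => QuotientGroup.mk_surjective _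
  choose v hv using h
  by_cases h0 : (1 + ∑ k, ((v k : Fˣ) : F)) ≠ 0
  · exact ⟨v, hv, h0⟩
  · push Not at h0
    rcases Nat.eq_zero_or_pos d with hd | hd
    · subst hd
      simp at h0
    · obtain ⟨g, hg, hg1⟩ := (Subgroup.ne_bot_iff_exists_ne_one.1 hG : ∃ a : G, a ≠ 1).elim
        (fun a ha => (⟨a.1, a.2, fun h => ha (Subtype.ext h)⟩ : ∃ g : Fˣ, g ∈ G ∧ g ≠ 1))
      let k₀ : Fin d := ⟨0, hd⟩
      refine ⟨Function.update v k₀ (v k₀ * g), fun k => ?_, fun h1 => ?_⟩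
      · by_cases hk : k = k₀
        · subst hk
          rw [Function.update_self, QuotientGroup.mk_mul_of_mem _ hg]
          exact hv _
        · rw [Function.update_of_ne hk]
          exact hv k
      · rw [← Finset.add_sum_erase _ _ (mem_univ k₀)] at h0 h1
        rw [Function.update_self] at h1
        have h2 : ∑ k ∈ univ.erase k₀, ((Function.update v k₀ (v k₀ * g) k : Fˣ) : F)
            = ∑ k ∈ univ.erase k₀, ((v k : Fˣ) : F) := by
          refine Finset.sum_congr rfl (fun k hk => ?_)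
          rw [Function.update_of_ne (Finset.ne_of_mem_erase hk)]
        rw [h2] at h1
        have h3 : ((v k₀ : Fˣ) : F) * g = (v k₀ : Fˣ) * 1 := by
          have h4 := h1.trans h0.symm
          have h5 := add_right_cancel (add_left_cancel h4)
          rw [Units.val_mul] at h5
          rw [h5, mul_one]
        have h6 := mul_left_cancel₀ (Units.ne_zero (v k₀)) h3
        exact hg1 (Units.ext h6)

/-- The coordinates among the classes. -/
def ix {d : ℕ} : Fin (d + 2) → Fin 3 ⊕ Fin d :=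
  Fin.cons (Sum.inl 0) (Fin.cons (Sum.inl 1) Sum.inr)

theorem kp_ix {n d : ℕ} (L : (Fin (d + 2) → Fin n) → Fin n) (c : Fin (d + 2) → Fin n)
    (k : Fin (d + 2)) : kp L (ix k) c = c k := by
  refine Fin.cases ?_ (fun k => ?_) k
  · rfl
  · refine Fin.cases ?_ (fun k => ?_) k
    · rfl
    · rfl

theorem sum_ix {A : Type} [AddCommMonoid A] {d : ℕ} (g : Fin 3 ⊕ Fin d → A) :
    ∑ k, g (ix k) = g (Sum.inl 0) + g (Sum.inl 1) + ∑ k, g (Sum.inr k) := by
  rw [Fin.sum_univ_succ, Fin.sum_univ_succ, ← add_assoc]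
  rfl

theorem transversalH {n d : ℕ} (hn : 0 < n) (L : (Fin (d + 2) → Fin n) → Fin n) (hL : IsHyper L)
    (w : (Fin (d + 2) → Fin n) → ℤ)
    (hw : ∀ κ i, (∑ x, if cls L κ x = i then w x else 0) = 1) :
    ∃ m₀ : ℕ, ∀ e ≥ m₀, ∀ (F : Type) [Field F] [Fintype F], e ∣ Fintype.card F - 1 →
      64 * e ^ 6 < Fintype.card F →
      HasTransversalH (fun x : Fin (d + 2) → Fin n × F => (L (fun k => (x k).1),
        ∑ k, (x k).2)) := by
  classical
  have hw' : ∀ s k, ∑ c, (if kp L s c = k then w c else 0) = 1 := by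
    intro s k; rw [kp_eq]; exact hw _ _
  obtain ⟨P, Q, cp, cn, ρ, h3, hρ, hS, hC⟩ := exists_structureH hn L w hw'
  obtain ⟨m₁, hm₁⟩ := big_weightsB hn L hL w hw (Fintype.card (OI P Q))
  refine ⟨max m₁ (2 * (Fintype.card (Fin 3 ⊕ Fin d) * Fintype.card (OI P Q) ^ 2) + 1),
    fun e he F _ _ hdvd hq => ?_⟩
  have he1 : m₁ ≤ e := (le_max_left _ _).trans he
  have he2 : 2 * (Fintype.card (Fin 3 ⊕ Fin d) * Fintype.card (OI P Q) ^ 2) + 1 ≤ e :=
    (le_max_right _ _).trans he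
  have he0 : 1 ≤ e := by omega
  have he6 : e ≤ e ^ 6 := Nat.le_self_pow (by norm_num) e
  obtain ⟨W, hWB, hW⟩ := hm₁ e he1
  obtain ⟨G, hG⟩ := exists_subgroup F e (by omega) hdvd
  have hGbot : G ≠ ⊥ := by
    rintro rfl
    rw [Subgroup.card_bot] at hG
    omega
  let o₀ : Fin n := ⟨0, hn⟩
  have hinv : ∀ k, ∃ i, L (Function.update (fun _ => o₀) 0 i) = k :=
    (hL (fun _ => o₀) 0).2
  choose inv hinv using hinv
  obtain ⟨v, hv0, hv1⟩ := exists_genericK (PM d P Q → F) (OI P Q) (Fin 3 ⊕ Fin d) (tO F ρ)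
    (tO_ne h3) (tO_sep h3 hS hC) G e hG (by omega) (by omega)
  -- the quotient
  let Quo := Fˣ ⧸ G
  have hfQ : Fintype Quo := Fintype.ofFinite _
  have hGpos : 0 < Nat.card G := Nat.card_pos
  have hcQ : Fintype.card Quo = e := by
    have h1 := Subgroup.card_eq_card_quotient_mul_card_subgroup G
    rw [Nat.card_eq_fintype_card (α := Fˣ), Fintype.card_units, ← hG, mul_comm] at h1
    have h2 := Nat.eq_of_mul_eq_mul_right hGpos h1
    rw [← Nat.card_eq_fintype_card]
    exact h2.symm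
  let I := Σ c, Fin (W c)
  let cO := cO L cp cn o₀ inv
  let cN := cN L cp cn o₀ inv
  obtain ⟨ins, hins1, hins⟩ : ∃ ins : OI P Q → I, (∀ o, (ins o).1 = cO o) ∧
      Function.Injective ins := by
    refine ⟨fun o => ⟨cO o, ⟨Fintype.equivFin (OI P Q) o, lt_of_lt_of_le (Fin.isLt _) (hWB _)⟩⟩,
      fun o => rfl, ?_⟩
    intro o o' h
    have h1 := congrArg (fun x : I => (x.2 : ℕ)) h
    simp only at h1
    exact (Fintype.equivFin (OI P Q)).injective (Fin.ext h1)
  let tok : Fin 3 ⊕ Fin d → OI P Q → Fˣ := fun s o => Units.mk0 (tO F ρ s o v) (hv0 s o)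
  have htok : ∀ s o, ((tok s o : Fˣ) : F) = tO F ρ s o v := fun s o => rfl
  let t : Fin 3 ⊕ Fin d → OI P Q → Quo := fun s o => ((tok s o : Fˣ) : Fˣ ⧸ G)
  have ht : ∀ s, Function.Injective (t s) := by
    intro s o o' h
    by_contra hne
    have h1 := QuotientGroup.eq.1 h
    refine hv1 s o' o (Ne.symm hne) _ h1 ?_
    rw [← htok, ← htok, ← Units.val_mul]
    rw [mul_right_comm, inv_mul_cancel, one_mul]
  have hlab : ∀ s, ∃ a : I → Quo, (∀ o, a (ins o) = t s o) ∧
      Function.Bijective (fun ι : I => (kp L s ι.1, a ι)) := by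
    intro s
    refine lab (1 : Fˣ ⧸ G) (fun ι : I => kp L s ι.1) ?_ ins hins (t s) (ht s)
    intro k
    rw [hcQ, ← hW (idx s) k, ← kp_eq]
    exact card_sigma_fibre W (kp L s) k
  choose a hao hab using hlab
  have hmul : ∀ ι : I, ∃ m : Fin 3 ⊕ Fin d → Fˣ, m (Sum.inl 0) = 1 ∧
      ((m (Sum.inl 2) : Fˣ) : F) = 1 + m (Sum.inl 1) + ∑ k, ((m (Sum.inr k) : Fˣ) : F) ∧
      (∀ s, ((m s : Fˣ) : Fˣ ⧸ G) * a (Sum.inl 0) ι = a s ι) ∧
      ∀ o, ι = ins o → ∀ s, m s * tok (Sum.inl 0) o = tok s o := by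
    intro ι
    by_cases hι : ∃ o, ι = ins o
    · obtain ⟨o, rfl⟩ := hι
      refine ⟨fun s => tok s o / tok (Sum.inl 0) o, div_self' _, ?_, fun s => ?_, ?_⟩
      · simp only [Units.val_div_eq_div_val, htok]
        rw [← tO_add, LinearMap.add_apply, LinearMap.add_apply, LinearMap.sum_apply,
          add_div, add_div, div_self (hv0 _ o), Finset.sum_div]
      · rw [hao, hao]
        show ((tok s o / tok (Sum.inl 0) o : Fˣ) : Fˣ ⧸ G)
          * ((tok (Sum.inl 0) o : Fˣ) : Fˣ ⧸ G) = _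
        rw [← QuotientGroup.mk_mul, div_mul_cancel]
      · intro o' ho' s
        have := hins ho'
        subst this
        exact div_mul_cancel _ _
    · obtain ⟨vv, hvv, hne⟩ := exists_reps G hGbot (fun k => a (Sum.inr k) ι / a (Sum.inl 0) ι)
      obtain ⟨tt, htt⟩ : ∃ tt : Fˣ, (tt : F) = 1 + ∑ k, ((vv k : Fˣ) : F) :=
        ⟨Units.mk0 _ hne, rfl⟩
      obtain ⟨u, hu⟩ := QuotientGroup.mk_surjective (s := G)
        (((tt : Fˣ) : Fˣ ⧸ G)⁻¹ * (a (Sum.inl 1) ι / a (Sum.inl 0) ι))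
      obtain ⟨u', hu'⟩ := QuotientGroup.mk_surjective (s := G)
        (((tt : Fˣ) : Fˣ ⧸ G)⁻¹ * (a (Sum.inl 2) ι / a (Sum.inl 0) ι))
      obtain ⟨x, y, hxy, hx, hy⟩ := consecutive G e he0 hG hq u u'
      refine ⟨Sum.elim ![1, tt * x, tt * y] vv, rfl, ?_, fun s => ?_, fun o ho => absurd ⟨o, ho⟩ hι⟩
      · show ((tt * y : Fˣ) : F) = 1 + ((tt * x : Fˣ) : F) + ∑ k, ((vv k : Fˣ) : F)
        rw [Units.val_mul, Units.val_mul, hxy, mul_add, mul_one, htt]
        ring
      · match s with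
        | Sum.inl 0 =>
          show ((1 : Fˣ) : Fˣ ⧸ G) * a (Sum.inl 0) ι = a (Sum.inl 0) ι
          rw [QuotientGroup.mk_one, one_mul]
        | Sum.inl 1 =>
          show ((tt * x : Fˣ) : Fˣ ⧸ G) * a (Sum.inl 0) ι = a (Sum.inl 1) ι
          rw [QuotientGroup.mk_mul, ← QuotientGroup.eq.2 hx, hu, mul_inv_cancel_left,
            div_mul_cancel]
        | Sum.inl 2 =>
          show ((tt * y : Fˣ) : Fˣ ⧸ G) * a (Sum.inl 0) ι = a (Sum.inl 2) ι
          rw [QuotientGroup.mk_mul, ← QuotientGroup.eq.2 hy, hu', mul_inv_cancel_left,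
            div_mul_cancel]
        | Sum.inr k =>
          show ((vv k : Fˣ) : Fˣ ⧸ G) * a (Sum.inl 0) ι = a (Sum.inr k) ι
          rw [hvv, div_mul_cancel]
  choose m hm0 hm12 hmq hmo using hmul
  let Base := {p : I × Fˣ // ((p.2 : Fˣ) : Fˣ ⧸ G) = a (Sum.inl 0) p.1}
  have hfB : Fintype Base := inferInstance
  let f : Fin 3 ⊕ Fin d → Base → Fin n × F :=
    fun s p => (kp L s p.1.1.1, ((m p.1.1 s * p.1.2 : Fˣ) : F))
  let oi : OI P Q → Base := fun o => ⟨(ins o, tok (Sum.inl 0) o), (hao (Sum.inl 0) o).symm⟩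
  have hoi : Function.Injective oi := by
    intro o o' h
    exact hins (congrArg (fun x : Base => x.1.1) h)
  have hfoi : ∀ s o, f s (oi o) = (kp L s (cO o), tO F ρ s o v) := by
    intro s o
    refine Prod.ext ?_ ?_
    · show kp L s (ins o).1 = _
      rw [hins1]
    · show ((m (ins o) s * tok (Sum.inl 0) o : Fˣ) : F) = _
      rw [hmo (ins o) o rfl s]
      rfl
  have hfsurj : ∀ s i (x : Fˣ), ∃ p, f s p = (i, (x : F)) := by
    intro s i x
    obtain ⟨ι, hι⟩ := (hab s).2 (i, ((x : Fˣ) : Fˣ ⧸ G))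
    have h1 : kp L s ι.1 = i := congrArg Prod.fst hι
    have h2 : a s ι = ((x : Fˣ) : Fˣ ⧸ G) := congrArg Prod.snd hι
    refine ⟨⟨(ι, (m ι s)⁻¹ * x), ?_⟩, ?_⟩
    · show (((m ι s)⁻¹ * x : Fˣ) : Fˣ ⧸ G) = a (Sum.inl 0) ι
      rw [QuotientGroup.mk_mul, ← h2, ← hmq ι s, QuotientGroup.mk_inv, inv_mul_cancel_left]
    · refine Prod.ext h1 ?_
      show ((m ι s * ((m ι s)⁻¹ * x) : Fˣ) : F) = x
      rw [mul_inv_cancel_left]
  let gN : Fin 3 ⊕ Fin d → NI P Q → Fin n × F := fun s ν => (kp L s (cN ν), tN F ρ s ν v)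
  let J := {p : Base // p ∉ Set.range oi} ⊕ NI P Q
  let Φ : Fin 3 ⊕ Fin d → J → Fin n × F := fun s => Sum.elim (fun p => f s p.1) (gN s)
  have hΦ : ∀ s, Function.Surjective (Φ s) := by
    rintro s ⟨i, x⟩
    by_cases hx : x = 0
    · obtain ⟨ν, h1, h2⟩ := hitZ F ρ hinv hρ s i
      refine ⟨Sum.inr ν, Prod.ext h1 ?_⟩
      show tN F ρ s ν v = x
      rw [h2, hx]
    · obtain ⟨p, hp⟩ := hfsurj s i (Units.mk0 x hx)
      by_cases hpo : p ∈ Set.range oi
      · obtain ⟨o, rfl⟩ := hpo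
        rw [hfoi] at hp
        obtain ⟨ν, h1, h2⟩ := hitO F ρ hinv hρ s o
        refine ⟨Sum.inr ν, ?_⟩
        rw [Units.val_mk0] at hp
        rw [← hp]
        refine Prod.ext h1 ?_
        show tN F ρ s ν v = tO F ρ s o v
        rw [h2]
      · exact ⟨Sum.inl ⟨p, hpo⟩, hp⟩
  have hcB : Fintype.card Base = n * (Fintype.card F - 1) := by
    have h1 : Function.Bijective (fun p : Base => (kp L (Sum.inl 0) p.1.1.1, p.1.2)) := by
      constructor
      · rintro ⟨⟨ι, x⟩, hp⟩ ⟨⟨ι', x'⟩, hp'⟩ h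
        simp only [Prod.mk.injEq] at h hp hp'
        obtain ⟨h1, rfl⟩ := h
        have : ι = ι' := (hab (Sum.inl 0)).1 (Prod.ext h1 (hp.symm.trans hp'))
        subst this
        rfl
      · rintro ⟨i, x⟩
        obtain ⟨ι, hι⟩ := (hab (Sum.inl 0)).2 (i, ((x : Fˣ) : Fˣ ⧸ G))
        have h1 : kp L (Sum.inl 0) ι.1 = i := congrArg Prod.fst hι
        have h2 : a (Sum.inl 0) ι = ((x : Fˣ) : Fˣ ⧸ G) := congrArg Prod.snd hι
        exact ⟨⟨(ι, x), h2.symm⟩, Prod.ext h1 rfl⟩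
    rw [Fintype.card_of_bijective h1, Fintype.card_prod, Fintype.card_fin, Fintype.card_units]
  have hcJ : Nat.card J ≤ Nat.card (Fin n × F) := by
    have h1 : Nat.card Base = Nat.card (OI P Q)
        + Nat.card {p : Base // p ∉ Set.range oi} := by
      rw [← Nat.card_congr (Equiv.sumCompl (fun p : Base => p ∈ Set.range oi)),
        Nat.card_sum]
      congr 1
      exact (Nat.card_congr (Equiv.ofInjective oi hoi)).symm
    have h2 : Nat.card J = Nat.card {p : Base // p ∉ Set.range oi}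
        + Nat.card (NI P Q) := Nat.card_sum
    have h3 : Nat.card Base = n * (Fintype.card F - 1) := by
      rw [Nat.card_eq_fintype_card, hcB]
    have h4 : Nat.card (NI P Q) = P + ((P + Q) + (P + Q)) := by simp
    have h5 : Nat.card (OI P Q) = Q + ((P + Q) + (P + Q)) := by simp
    have h6 : P = n + Q := by
      have := Fintype.card_congr (ρ (Sum.inl 0))
      simpa using this
    have h7 : Nat.card (Fin n × F) = n * Fintype.card F := by simp
    have h8 : 0 < Fintype.card F := Fintype.card_pos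
    have h9 : n * Fintype.card F = n * (Fintype.card F - 1) + n := by
      conv_lhs => rw [show Fintype.card F = (Fintype.card F - 1) + 1 by omega]
      ring
    omega
  have hbij : ∀ s, Function.Bijective (Φ s) := fun s =>
    (hΦ s).bijective_of_nat_card_le hcJ
  have hrel : ∀ j, (L (fun k => (Φ (ix k) j).1), ∑ k, (Φ (ix k) j).2) = Φ (Sum.inl 2) j := by
    rintro (p | ν)
    · refine Prod.ext ?_ ?_
      · have : (fun k => (Φ (ix k) (Sum.inl p)).1) = p.1.1.1.1 := by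
          funext k
          exact kp_ix L _ k
        simp only
        rw [this]
        rfl
      · show ∑ k, ((m p.1.1.1 (ix k) * p.1.1.2 : Fˣ) : F) = ((m p.1.1.1 (Sum.inl 2) * p.1.1.2 : Fˣ) : F)
        simp only [Units.val_mul]
        rw [← Finset.sum_mul, hm12, sum_ix (fun s => ((m p.1.1.1 s : Fˣ) : F)), hm0]
        simp only [Units.val_one]
    · refine Prod.ext ?_ ?_
      · have : (fun k => (Φ (ix k) (Sum.inr ν)).1) = cN ν := by
          funext k
          exact kp_ix L _ k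
        simp only
        rw [this]
        rfl
      · show ∑ k, tN F ρ (ix k) ν v = tN F ρ (Sum.inl 2) ν v
        rw [sum_ix (fun s => tN F ρ s ν v), ← tN_add, LinearMap.add_apply, LinearMap.add_apply,
          LinearMap.sum_apply]
  let e0 := Equiv.ofBijective _ (hbij (Sum.inl 0))
  refine ⟨fun r k => Φ (ix k) (e0.symm r), fun k => (hbij (ix k)).comp e0.symm.bijective, ?_⟩
  have hfin : (fun r => (fun x : Fin (d + 2) → Fin n × F => (L (fun k => (x k).1),
      ∑ k, (x k).2)) ((fun r k => Φ (ix k) (e0.symm r)) r)) = Φ (Sum.inl 2) ∘ e0.symm := by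
    funext r
    exact hrel (e0.symm r)
  rw [hfin]
  exact (hbij (Sum.inl 2)).comp e0.symm.bijective

end TH964.HC
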