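import Pool.Agent.TH964.HC.Wt
import Pool.Agent.TH964.HP.Main

set_option autoImplicit false

/-! Transversals in affine extensions of Latin hypercubes. -/

namespace TH964.HC

open Finset TH964.HP

/-- The signs. -/
def sgn (k : ℕ) : ℤ := if k = 0 then 1 else (-1) ^ (k + 1)

theorem sgn_sum (d : ℕ) (hd : 1 ≤ d) : ∑ k ∈ range d, sgn k = if Even d then 2 else 1 := by
  induction d, hd using Nat.le_induction with
  | base => simp [sgn]
  | succ d hd ih =>
    rw [Finset.sum_range_succ, ih]
    have hd0 : d ≠ 0 := by omega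
    rcases Nat.even_or_odd d with h | h
    · have h' : ¬ Even (d + 1) := by rw [Nat.even_add_one]; exact not_not.2 h
      rw [if_pos h, if_neg h', sgn, if_neg hd0, Odd.neg_one_pow h.add_one]
      norm_num
    · have h' : Even (d + 1) := by rw [Nat.even_add_one]; exact Nat.not_even_iff_odd.2 h
      rw [if_neg (Nat.not_even_iff_odd.2 h), if_pos h', sgn, if_neg hd0, Even.neg_one_pow h']
      norm_num

theorem sgn_cases (k : ℕ) : sgn k = 1 ∨ sgn k = -1 := by
  rw [sgn]
  split_ifs
  · exact Or.inl rfl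
  · exact neg_one_pow_eq_or ℤ (k + 1)

theorem construct {d n : ℕ} (hd : 2 ≤ d) {U A : Type} [AddCommGroup U] [AddCommGroup A]
    [Finite U] [Finite A] (L : (Fin d → Fin n) → Fin n) (W : (Fin d → Fin n) → ℕ)
    (hW : ∀ κ i, (∑ x, if cls L κ x = i then W x else 0) = Nat.card A)
    (ρ : U →+ A) (hρ : Function.Surjective ρ)
    (h2 : Odd d ∨ Function.Injective (fun u : U => (2 : ℤ) • u))
    (p : Fin d → (Fin d → Fin n) → U ≃+ U) (p' : Fin d → (Fin d → Fin n) → A ≃+ A)
    (θ : (Fin d → Fin n) → U) (θ' : (Fin d → Fin n) → A)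
    (hp : ∀ k c u, ρ (p k c u) = p' k c (ρ u)) :
    HasTransversalH (fun x : Fin d → Fin n × (U × A) =>
      (L (fun k => (x k).1), (∑ k, p k (fun k => (x k).1) (x k).2.1 + θ (fun k => (x k).1),
        ∑ k, p' k (fun k => (x k).1) (x k).2.2 + θ' (fun k => (x k).1)))) := by
  classical
  have := Fintype.ofFinite U
  have := Fintype.ofFinite A
  let I := Σ c, Fin (W c)
  have hfib : ∀ κ i, (univ.filter (fun ι : I => cls L κ ι.1 = i)).card = Fintype.card A := by
    intro κ i
    rw [← Fintype.card_subtype, ← Nat.card_eq_fintype_card (α := A), ← hW κ i,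
      Fintype.card_congr (Equiv.subtypeSigmaEquiv (fun c => Fin (W c)) (fun c => cls L κ c = i)),
      Fintype.card_sigma]
    simp only [Fintype.card_fin]
    rw [← Finset.sum_filter]
    symm
    exact Finset.sum_subtype (univ.filter (fun c => cls L κ c = i)) (by simp) W
  have hb : ∀ κ, ∃ b : I → A, Function.Injective (fun ι : I => (cls L κ ι.1, b ι)) :=
    fun κ => fibre_label (fun ι : I => cls L κ ι.1) (hfib κ)
  choose b hb using hb
  choose lift hlift using hρ
  let k0 : Fin d := ⟨0, by omega⟩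
  let k1 : Fin d := ⟨1, by omega⟩
  have hk : k1 ≠ k0 := fun h => Nat.one_ne_zero (congrArg Fin.val h)
  obtain ⟨σ, hσ⟩ : ∃ σ : ℤ, σ = ∑ k : Fin d, sgn k := ⟨_, rfl⟩
  have hσ' : Function.Injective (fun u : U => σ • u) := by
    have hs : σ = if Even d then 2 else 1 := by
      rw [hσ, ← sgn_sum d (by omega), Finset.sum_range]
    rcases h2 with h | h
    · rw [hs, if_neg (Nat.not_even_iff_odd.2 h)]
      intro u v huv
      simpa using huv
    · rw [hs]
      split_ifs
      · exact h
      · intro u v huv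
        simpa using huv
  have hs1 : sgn (k1 : ℕ) = 1 := by
    show sgn 1 = 1
    simp [sgn]
  let φ : Fin d → ℤ := fun k => if k = k1 then σ else 0
  let t : Fin d → I → U := fun k ι => if k = k0 then
    lift (∑ k, p' k ι.1 (b (some k) ι) + θ' ι.1 - ρ (θ ι.1) - b none ι) else 0
  let u : Fin d → I × U → U := fun k x => (p k x.1.1).symm (sgn k • x.2 + t k x.1)
  let Ψ : Fin d → I × U → Fin n × (U × A) := fun k x =>
    (x.1.1 k, (u k x, φ k • ρ (u k x) + b (some k) x.1))
  let Y : I × U → U := fun x => σ • x.2 + t k0 x.1 + θ x.1.1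
  let Sy : I × U → Fin n × (U × A) := fun x => (L x.1.1, (Y x, ρ (Y x) + b none x.1))
  have hpu : ∀ k x, p k x.1.1 (u k x) = sgn k • x.2 + t k x.1 := by
    intro k x
    simp only [u, AddEquiv.apply_symm_apply]
  have hcard : Nat.card (I × U) ≤ Nat.card (Fin n × (U × A)) := by
    have h1 : Nat.card I ≤ Nat.card (Fin n × A) := Nat.card_le_card_of_injective _ (hb none)
    rw [Nat.card_prod, Nat.card_prod, Nat.card_prod]
    rw [Nat.card_prod] at h1
    calc Nat.card I * Nat.card U ≤ Nat.card (Fin n) * Nat.card A * Nat.card U :=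
          Nat.mul_le_mul_right _ h1
      _ = Nat.card (Fin n) * (Nat.card U * Nat.card A) := by ring
  have hcardI : Fintype.card I = n * Fintype.card A := by
    rw [← Fintype.card_congr (Equiv.sigmaFiberEquiv (fun ι : I => cls L none ι.1)),
      Fintype.card_sigma]
    have : ∀ i : Fin n, Fintype.card {ι : I // cls L none ι.1 = i} = Fintype.card A := by
      intro i
      rw [Fintype.card_subtype]
      exact hfib none i
    simp [this]
  have hcard' : Nat.card (Fin n × (U × A)) ≤ Nat.card (I × U) := by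
    rw [Nat.card_prod, Nat.card_prod, Nat.card_prod, Nat.card_eq_fintype_card (α := I), hcardI,
      Nat.card_eq_fintype_card (α := Fin n), Nat.card_eq_fintype_card (α := A), Fintype.card_fin]
    exact le_of_eq (by ring)
  have hΨ : ∀ k, Function.Injective (Ψ k) := by
    rintro k ⟨ι, v⟩ ⟨ι', v'⟩ h
    simp only [Ψ, Prod.mk.injEq] at h
    obtain ⟨h1, h2, h3⟩ := h
    rw [h2] at h3
    have h4 : ι = ι' := hb (some k) (Prod.ext h1 (add_left_cancel h3))
    subst h4
    have h5 := congrArg (p k ι.1) h2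
    rw [hpu k (ι, v), hpu k (ι, v')] at h5
    have h6 := add_right_cancel h5
    have h7 : v = v' := by
      rcases sgn_cases k with hs | hs
      · rw [hs] at h6; simpa using h6
      · rw [hs] at h6; simpa using h6
    rw [h7]
  have hSy : Function.Injective Sy := by
    rintro ⟨ι, v⟩ ⟨ι', v'⟩ h
    simp only [Sy, Prod.mk.injEq] at h
    obtain ⟨h1, h2, h3⟩ := h
    rw [h2] at h3
    have h4 : ι = ι' := hb none (Prod.ext h1 (add_left_cancel h3))
    subst h4
    have h5 : σ • v = σ • v' := by
      simp only [Y] at h2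
      exact add_right_cancel (add_right_cancel h2)
    rw [hσ' h5]
  have hΨb : ∀ k, Function.Bijective (Ψ k) := fun k =>
    (hΨ k).bijective_of_nat_card_le hcard'
  have hSyb : Function.Bijective Sy := hSy.bijective_of_nat_card_le hcard'
  let e := Equiv.ofBijective _ (hΨb k0)
  refine ⟨fun r k => Ψ k (e.symm r), fun k => (hΨb k).comp e.symm.bijective, ?_⟩
  have hfin : (fun r => (fun x : Fin d → Fin n × (U × A) =>
      (L (fun k => (x k).1), (∑ k, p k (fun k => (x k).1) (x k).2.1 + θ (fun k => (x k).1),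
        ∑ k, p' k (fun k => (x k).1) (x k).2.2 + θ' (fun k => (x k).1))))
        ((fun r k => Ψ k (e.symm r)) r)) = Sy ∘ e.symm := by
    funext r
    obtain ⟨x, hx⟩ : ∃ x, x = e.symm r := ⟨_, rfl⟩
    simp only [Function.comp_apply, ← hx]
    have hc : (fun k => (Ψ k x).1) = x.1.1 := rfl
    rw [hc]
    have hU : ∑ k, p k x.1.1 (Ψ k x).2.1 + θ x.1.1 = Y x := by
      have : ∀ k, p k x.1.1 (Ψ k x).2.1 = sgn k • x.2 + t k x.1 := fun k => hpu k x
      simp_rw [this, Finset.sum_add_distrib]
      rw [← Finset.sum_smul, ← hσ]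
      congr 2
      rw [Finset.sum_eq_single k0]
      · intro k _ hk'
        simp only [t, if_neg hk']
      · simp
    have hA : ∑ k, p' k x.1.1 (Ψ k x).2.2 + θ' x.1.1 = ρ (Y x) + b none x.1 := by
      have h1 : ∀ k, p' k x.1.1 (Ψ k x).2.2
          = φ k • ρ (sgn k • x.2 + t k x.1) + p' k x.1.1 (b (some k) x.1) := by
        intro k
        show p' k x.1.1 (φ k • ρ (u k x) + b (some k) x.1) = _
        rw [map_add, map_zsmul, ← hp, hpu]
      simp_rw [h1, Finset.sum_add_distrib]
      have h3 : ∑ k, φ k • ρ (sgn k • x.2 + t k x.1) = σ • ρ x.2 := by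
        rw [Finset.sum_eq_single k1]
        · simp only [φ, if_true, t, if_neg hk, add_zero, hs1, one_smul]
        · intro k _ hk'
          simp only [φ, if_neg hk', zero_smul]
        · simp
      rw [h3]
      have h4 : ρ (t k0 x.1) = ∑ k, p' k x.1.1 (b (some k) x.1) + θ' x.1.1 - ρ (θ x.1.1)
          - b none x.1 := by
        simp only [t, if_true]
        rw [hlift]
      show _ = ρ (σ • x.2 + t k0 x.1 + θ x.1.1) + b none x.1
      rw [map_add, map_add, map_zsmul, h4]
      abel
    exact Prod.ext rfl (Prod.ext hU hA)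
  rw [hfin]
  exact hSyb.comp e.symm.bijective

theorem hasTransversalH_iso {d : ℕ} {R S R' S' : Type} (P : (Fin d → R) → S)
    (P' : (Fin d → R') → S') (eR : R' ≃ R) (eS : S' ≃ S)
    (h : ∀ x, eS (P' x) = P (fun k => eR (x k))) (hP : HasTransversalH P) :
    HasTransversalH P' := by
  obtain ⟨T, h1, h2⟩ := hP
  refine ⟨fun r k => eR.symm (T (eR r) k), fun j => eR.symm.bijective.comp ((h1 j).comp eR.bijective),
    ?_⟩
  have : (fun r => P' ((fun r k => eR.symm (T (eR r) k)) r)) = eS.symm ∘ (fun i => P (T i)) ∘ eR := by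
    funext r
    simp only [Function.comp_apply]
    rw [Equiv.eq_symm_apply, h]
    simp
  rw [this]
  exact eS.symm.bijective.comp (h2.comp eR.bijective)

theorem main (d n : ℕ) (hd : 2 ≤ d) (hdn : Odd d ∨ Odd n) : ∃ m₀ : ℕ,
    ∀ L : (Fin d → Fin n) → Fin n, IsHyper L →
      ∀ (G : Type) [AddCommGroup G] [Finite G] (a : Fin d → (Fin d → Fin n) → ℕ)
        (θ : (Fin d → Fin n) → G), (Odd d ∨ Odd (Nat.card G)) →
        (∀ k c, (Nat.card G).Coprime (a k c)) → m₀ * AddMonoid.exponent G ≤ Nat.card G →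
        HasTransversalH (fun x : Fin d → Fin n × G => (L (fun k => (x k).1),
          ∑ k, a k (fun k => (x k).1) • (x k).2 + θ (fun k => (x k).1))) := by
  classical
  rcases Nat.eq_zero_or_pos n with h0 | h0
  · subst h0
    refine ⟨0, fun L _ G _ _ a θ _ _ _ => ⟨fun r => r.1.elim0, fun j => ?_, ?_⟩⟩
    · exact ⟨fun r => r.1.elim0, fun r => r.1.elim0⟩
    · exact ⟨fun r => r.1.elim0, fun r => r.1.elim0⟩
  have h : ∀ L : (Fin d → Fin n) → Fin n, ∃ m : ℕ, IsHyper L → ∀ e ≥ m,
      ∃ W : (Fin d → Fin n) → ℕ, ∀ κ i, (∑ x, if cls L κ x = i then W x else 0) = e := by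
    intro L
    by_cases hL : IsHyper L
    · obtain ⟨w, hw⟩ := exists_weights (cls L) (fun T _ a ha => no_obstruction hd h0 hdn L hL T a ha)
      obtain ⟨m, hm⟩ := big_weights hd h0 L hL w hw
      exact ⟨m, fun _ => hm⟩
    · exact ⟨0, fun h => absurd h hL⟩
  choose m hm using h
  obtain ⟨m₁, hm₁⟩ : ∃ m₁, m₁ = univ.sup m := ⟨_, rfl⟩
  refine ⟨m₁ ^ 2, fun L hL G _ _ a θ hodd ha hG => ?_⟩
  obtain ⟨U, A, _, _, _, _, ρ, hρ, ⟨e⟩, hcard⟩ := decomp G
  have hexp : 0 < AddMonoid.exponent G := Nat.pos_of_ne_zero AddMonoid.exponent_ne_zero_of_finite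
  have hA : m₁ ≤ Nat.card A := by
    by_contra hlt
    push Not at hlt
    have h1 : m₁ ^ 2 ≤ Nat.card A ^ 2 := Nat.le_of_mul_le_mul_right (hG.trans hcard) hexp
    exact absurd h1 (by
      push Not
      exact Nat.pow_lt_pow_left hlt (by norm_num))
  have hmL : m L ≤ Nat.card A := le_trans (by rw [hm₁]; exact Finset.le_sup (f := m) (mem_univ L)) hA
  obtain ⟨W, hW⟩ := hm L hL _ hmL
  have hcU : Nat.card G = Nat.card U * Nat.card A := by
    rw [Nat.card_congr e.toEquiv, Nat.card_prod]
  have hU : ∀ x : ℕ, (Nat.card G).Coprime x → (Nat.card U).Coprime x := fun x hx =>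
    Nat.Coprime.coprime_dvd_left (by rw [hcU]; exact Dvd.intro _ rfl) hx
  have hA' : ∀ x : ℕ, (Nat.card G).Coprime x → (Nat.card A).Coprime x := fun x hx =>
    Nat.Coprime.coprime_dvd_left (by rw [hcU]; exact Dvd.intro_left _ rfl) hx
  have h2 : Odd d ∨ Function.Injective (fun u : U => (2 : ℤ) • u) := by
    rcases hodd with h | h
    · exact Or.inl h
    · refine Or.inr ?_
      intro u v huv
      have h3 := hU 2 (Nat.coprime_two_right.2 h)
      apply (mulEq U 2 h3).injective
      rw [mulEq_apply, mulEq_apply]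
      simp only at huv
      rw [← natCast_zsmul, ← natCast_zsmul]
      exact huv
  have := construct hd L W hW ρ hρ h2 (fun k c => mulEq U (a k c) (hU _ (ha k c)))
    (fun k c => mulEq A (a k c) (hA' _ (ha k c))) (fun c => (e (θ c)).1) (fun c => (e (θ c)).2)
    (fun k c u => by simp [mulEq_apply])
  refine hasTransversalH_iso _ _ ((Equiv.refl (Fin n)).prodCongr e.toEquiv)
    ((Equiv.refl (Fin n)).prodCongr e.toEquiv) ?_ this
  intro x
  refine Prod.ext rfl ?_
  have h5 : e (∑ k, a k (fun k => (x k).1) • (x k).2 + θ (fun k => (x k).1))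
      = (∑ k, a k (fun k => (x k).1) • (e (x k).2).1 + (e (θ (fun k => (x k).1))).1,
        ∑ k, a k (fun k => (x k).1) • (e (x k).2).2 + (e (θ (fun k => (x k).1))).2) := by
    rw [map_add, map_sum]
    refine Prod.ext ?_ ?_
    · rw [Prod.fst_add, Prod.fst_sum]
      simp
    · rw [Prod.snd_add, Prod.snd_sum]
      simp
  exact h5

/-- The affine extensions are Latin hypercubes. -/
theorem isHyper_ext {d n : ℕ} (L : (Fin d → Fin n) → Fin n) (hL : IsHyper L)
    (G : Type) [AddCommGroup G] [Finite G] (a : Fin d → (Fin d → Fin n) → ℕ)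
    (θ : (Fin d → Fin n) → G) (ha : ∀ k c, (Nat.card G).Coprime (a k c)) :
    IsHyper (fun x : Fin d → Fin n × G => (L (fun k => (x k).1),
      ∑ k, a k (fun k => (x k).1) • (x k).2 + θ (fun k => (x k).1))) := by
  classical
  intro x j
  have hfst : ∀ r : Fin n × G, (fun k => (Function.update x j r k).1)
      = Function.update (fun k => (x k).1) j r.1 := by
    intro r
    funext k
    by_cases hk : k = j
    · subst hk; simp
    · simp [hk]
  have : Function.Injective (fun r => (fun x : Fin d → Fin n × G => (L (fun k => (x k).1),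
      ∑ k, a k (fun k => (x k).1) • (x k).2 + θ (fun k => (x k).1))) (Function.update x j r)) := by
    intro r r' h
    simp only [hfst, Prod.mk.injEq] at h
    obtain ⟨h1, h2⟩ := h
    have h3 : r.1 = r'.1 := (hL (fun k => (x k).1) j).injective h1
    rw [h3] at h2
    have h4 := add_right_cancel h2
    rw [← Finset.add_sum_erase _ _ (mem_univ j),
      ← Finset.add_sum_erase univ _ (mem_univ j)] at h4
    have h5 : ∀ k ∈ univ.erase j, a k (Function.update (fun k => (x k).1) j r'.1) •
        (Function.update x j r k).2 = a k (Function.update (fun k => (x k).1) j r'.1) •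
        (Function.update x j r' k).2 := by
      intro k hk
      rw [Function.update_of_ne (Finset.ne_of_mem_erase hk),
        Function.update_of_ne (Finset.ne_of_mem_erase hk)]
    rw [Finset.sum_congr rfl h5] at h4
    have h6 := add_right_cancel h4
    rw [Function.update_self, Function.update_self] at h6
    have h7 : r.2 = r'.2 := by
      apply (mulEq G _ (ha j (Function.update (fun k => (x k).1) j r'.1))).injective
      rw [mulEq_apply, mulEq_apply]
      exact h6
    exact Prod.ext h3 h7
  exact Finite.injective_iff_bijective.1 this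

end TH964.HC
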