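import Pool.Agent.TH964.HC.Pair

set_option autoImplicit false

/-! Latin cubes. -/

namespace TH964.HC

open Finset

/-- Latin cubes: along every line every symbol occurs exactly once. -/
def IsCube {R S : Type} (L : R → R → R → S) : Prop :=
  (∀ j k, Function.Bijective (fun i => L i j k)) ∧
  (∀ i k, Function.Bijective (fun j => L i j k)) ∧
  (∀ i j, Function.Bijective (fun k => L i j k))

/-- A transversal: cells `(r, σ r, τ r)`, `σ` and `τ` permutations, with every symbol exactly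
once. -/
def CubeTransversal {R S : Type} (L : R → R → R → S) : Prop :=
  ∃ σ τ : Equiv.Perm R, Function.Bijective (fun r => L r (σ r) (τ r))

theorem isHyper_cube {n : ℕ} (L : Fin n → Fin n → Fin n → Fin n) (hL : IsCube L) :
    IsHyper (fun c : Fin 3 → Fin n => L (c 0) (c 1) (c 2)) := by
  intro x j
  obtain ⟨h1, h2, h3⟩ := hL
  fin_cases j
  · simpa [Function.update] using h1 (x 1) (x 2)
  · simpa [Function.update] using h2 (x 0) (x 2)
  · simpa [Function.update] using h3 (x 0) (x 1)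

theorem cubeTransversal_of {R S : Type} (P : R → R → R → S)
    (h : HasTransversalH (fun x : Fin 3 → R => P (x 0) (x 1) (x 2))) : CubeTransversal P := by
  obtain ⟨T, h1, h2⟩ := h
  let a := Equiv.ofBijective _ (h1 0)
  let b := Equiv.ofBijective _ (h1 1)
  let c := Equiv.ofBijective _ (h1 2)
  refine ⟨a.symm.trans b, a.symm.trans c, ?_⟩
  have : (fun r => P r ((a.symm.trans b) r) ((a.symm.trans c) r))
      = (fun i => P (T i 0) (T i 1) (T i 2)) ∘ a.symm := by
    funext r
    have e1 : T (a.symm r) 0 = r := a.apply_symm_apply r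
    simp only [Function.comp_apply, e1]
    rfl
  rw [this]
  exact h2.comp a.symm.bijective

theorem isCube_family {n : ℕ} (L : Fin n → Fin n → Fin n → Fin n) (hL : IsCube L) (S : Type)
    (A B : Fin n → Fin n → Fin n → S → S → S) (hA : ∀ i j k, TH964.HP.IsLatin (A i j k))
    (hB : ∀ i j k, TH964.HP.IsLatin (B i j k)) :
    IsCube (fun a b c : Fin n × S => (L a.1 b.1 c.1, B a.1 b.1 c.1 (A a.1 b.1 c.1 a.2 b.2) c.2)) := by
  obtain ⟨h1, h2, h3⟩ := hL
  have key : ∀ (f : Fin n → Fin n) (g : Fin n → S → S), Function.Bijective f →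
      (∀ i, Function.Bijective (g i)) →
      Function.Bijective (fun a : Fin n × S => (f a.1, g a.1 a.2)) := by
    intro f g hf hg
    constructor
    · rintro ⟨i, x⟩ ⟨i', x'⟩ h
      simp only [Prod.mk.injEq] at h
      obtain ⟨h1, h2⟩ := h
      have h3 := hf.1 h1
      subst h3
      exact Prod.ext rfl ((hg i).1 h2)
    · rintro ⟨s, y⟩
      obtain ⟨i, hi⟩ := hf.2 s
      obtain ⟨x, hx⟩ := (hg i).2 y
      exact ⟨(i, x), Prod.ext hi hx⟩
  refine ⟨fun b c => ?_, fun a c => ?_, fun a b => ?_⟩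
  · exact key (fun i => L i b.1 c.1) (fun i x => B i b.1 c.1 (A i b.1 c.1 x b.2) c.2)
      (h1 b.1 c.1) (fun i => ((hB i b.1 c.1).2 c.2).comp ((hA i b.1 c.1).2 b.2))
  · exact key (fun j => L a.1 j c.1) (fun j y => B a.1 j c.1 (A a.1 j c.1 a.2 y) c.2)
      (h2 a.1 c.1) (fun j => ((hB a.1 j c.1).2 c.2).comp ((hA a.1 j c.1).1 a.2))
  · exact key (fun k => L a.1 b.1 k) (fun k z => B a.1 b.1 k (A a.1 b.1 k a.2 b.2) z)
      (h3 a.1 b.1) (fun k => (hB a.1 b.1 k).1 _)

theorem cube_main (n : ℕ) : ∃ m₀ : ℕ, ∀ L : Fin n → Fin n → Fin n → Fin n, IsCube L →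
    ∀ (S : Type) [Finite S], m₀ ≤ Nat.card S →
      (∀ A B : S → S → S, TH964.HP.IsLatin A → TH964.HP.IsLatin B →
        CubeTransversal (fun a b c : Fin n × S => (L a.1 b.1 c.1, B (A a.2 b.2) c.2))) ∧
      (∀ (A B : Fin n → Fin n → Fin n → S → S → S) (τ ω : Equiv.Perm S)
        (q : Fin n → Fin n → Fin n → S), (∀ i j k x, A i j k x (τ x) = q i j k) →
        (∀ i j k z, B i j k (q i j k) z = ω z) →
        CubeTransversal (fun a b c : Fin n × S =>
          (L a.1 b.1 c.1, B a.1 b.1 c.1 (A a.1 b.1 c.1 a.2 b.2) c.2))) := by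
  obtain ⟨m₀, h⟩ := pair_main 3 n (by norm_num) (by decide)
  have fam : ∀ L : Fin n → Fin n → Fin n → Fin n, IsCube L →
    ∀ (S : Type) [Finite S], m₀ ≤ Nat.card S →
      (∀ (A B : Fin n → Fin n → Fin n → S → S → S) (τ ω : Equiv.Perm S)
        (q : Fin n → Fin n → Fin n → S), (∀ i j k x, A i j k x (τ x) = q i j k) →
        (∀ i j k z, B i j k (q i j k) z = ω z) →
        CubeTransversal (fun a b c : Fin n × S =>
          (L a.1 b.1 c.1, B a.1 b.1 c.1 (A a.1 b.1 c.1 a.2 b.2) c.2))) := by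
    intro L hL S _ hS A B τ ω q hA hB
    refine cubeTransversal_of _ (h _ (isHyper_cube L hL) S
      (fun c x => B (c 0) (c 1) (c 2) (A (c 0) (c 1) (c 2) (x 0) (x 1)) (x 2)) ?_ hS)
    refine ⟨![Equiv.refl S, τ, Equiv.refl S], ω, fun c f => ?_⟩
    show B (c 0) (c 1) (c 2) (A (c 0) (c 1) (c 2) (f 0) (τ (f 0))) (f 1) = ω (f 1)
    rw [hA, hB]
  refine ⟨m₀, fun L hL S _ hS => ⟨fun A B hA hB => ?_, fam L hL S hS⟩⟩
  rcases isEmpty_or_nonempty S with hE | ⟨⟨q⟩⟩
  · exact ⟨Equiv.refl _, Equiv.refl _, fun r => (hE.false r.2).elim, fun r => (hE.false r.2).elim⟩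
  · have hex : ∀ x, ∃ y, A x y = q := fun x => (hA.1 x).2 q
    choose g hg using hex
    have hgi : Function.Injective g := by
      intro x x' hx
      have h1 := hg x
      rw [hx] at h1
      exact (hA.2 (g x')).1 (h1.trans (hg x').symm)
    exact fam L hL S hS (fun _ _ _ => A) (fun _ _ _ => B)
      (Equiv.ofBijective g (Finite.injective_iff_bijective.1 hgi))
      (Equiv.ofBijective _ (hB.1 q)) (fun _ _ _ => q) (fun _ _ _ x => hg x) (fun _ _ _ z => rfl)

end TH964.HC
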