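import Pool.Agent.TH964.HC.Sv

set_option autoImplicit false

/-! Products of Latin squares with solvable groups. -/

namespace TH964.HC

open Finset TH964.HP

theorem trans_iff {R S : Type} (P : R → R → S) :
    HasTransversalH (fun x : Fin 2 → R => P (x 0) (x 1)) ↔ HasTransversal P := by
  constructor
  · rintro ⟨T, h1, h2⟩
    let a := Equiv.ofBijective _ (h1 0)
    let b := Equiv.ofBijective _ (h1 1)
    refine ⟨a.symm.trans b, ?_⟩
    have : (fun r => P r ((a.symm.trans b) r)) = (fun i => P (T i 0) (T i 1)) ∘ a.symm := by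
      funext r
      have e1 : T (a.symm r) 0 = r := a.apply_symm_apply r
      simp only [Function.comp_apply, e1]
      rfl
    rw [this]
    exact h2.comp a.symm.bijective
  · rintro ⟨σ, hσ⟩
    refine ⟨fun r => ![r, σ r], fun j => ?_, hσ⟩
    refine Fin.cases ?_ (fun j => ?_) j
    · exact Function.bijective_id
    · have : j = 0 := Subsingleton.elim _ _
      subst this
      exact σ.bijective

/-- The square as a hypercube of dimension two. -/
def sqr {n : ℕ} (L : Fin n → Fin n → Fin n) : (Fin 2 → Fin n) → Fin n := fun c => L (c 0) (c 1)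

theorem prod_iff {n : ℕ} (L : Fin n → Fin n → Fin n) (G : Type) [Group G] :
    HasTransversalH (fun x : Fin 2 → Fin n × G => (sqr L (fun k => (x k).1),
      (List.ofFn (fun k => (x k).2)).prod)) ↔
    HasTransversal (fun r c : Fin n × G => (L r.1 c.1, r.2 * c.2)) := by
  rw [← trans_iff]
  have : (fun x : Fin 2 → Fin n × G => (sqr L (fun k => (x k).1),
      (List.ofFn (fun k => (x k).2)).prod))
      = fun x : Fin 2 → Fin n × G => (L (x 0).1 (x 1).1, (x 0).2 * (x 1).2) := by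
    funext x
    simp [sqr]
  rw [this]

theorem sum_iff {n : ℕ} (L : Fin n → Fin n → Fin n) (F : Type) [AddCommGroup F] :
    HasTransversalH (fun x : Fin 2 → Fin n × F => (sqr L (fun k => (x k).1), ∑ k, (x k).2)) ↔
    HasTransversal (fun r c : Fin n × F => (L r.1 c.1, r.2 + c.2)) := by
  rw [← trans_iff]
  have : (fun x : Fin 2 → Fin n × F => (sqr L (fun k => (x k).1), ∑ k, (x k).2))
      = fun x : Fin 2 → Fin n × F => (L (x 0).1 (x 1).1, (x 0).2 + (x 1).2) := by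
    funext x
    simp [sqr, Fin.sum_univ_two]
  rw [this]

theorem solvable_sq {n : ℕ} (L : Fin n → Fin n → Fin n) (e₀ : ℕ)
    (he₀ : ∀ e ≥ e₀, ∀ (F : Type) [Field F] [Finite F], e ∣ Nat.card F - 1 →
      64 * e ^ 6 < Nat.card F →
      HasTransversal (fun r c : Fin n × F => (L r.1 c.1, r.2 + c.2)))
    (G : Type) [Group G] [Finite G] [Group.IsSolvable G] (p e : ℕ) (hG : Odd (Nat.card G))
    (hp : p.Prime) (hpG : p ∣ Nat.card G) (he : e₀ ≤ e) (h1 : e ∣ p - 1) (h2 : 64 * e ^ 6 < p) :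
    HasTransversal (fun r c : Fin n × G => (L r.1 c.1, r.2 * c.2)) := by
  rw [← prod_iff]
  refine solvable_caseH le_rfl (sqr L) e₀ (fun e he F _ _ h1 h2 => ?_) p e hp he h1 h2 _ G rfl
    (Or.inr hG) hpG
  rw [sum_iff]
  exact he₀ e he F h1 h2

theorem ext2_sq {n : ℕ} (L : Fin n → Fin n → Fin n) {G : Type} [Group G] [Finite G]
    (N : Subgroup G) [N.Normal] (hN : HasTransversal (fun x y : N => x * y))
    (h : HasTransversal (fun r c : Fin n × (G ⧸ N) => (L r.1 c.1, r.2 * c.2))) :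
    HasTransversal (fun r c : Fin n × G => (L r.1 c.1, r.2 * c.2)) := by
  rw [← prod_iff]
  exact ext2H le_rfl (sqr L) N (Or.inr hN) ((prod_iff L (G ⧸ N)).2 h)

theorem obstructed_prod {n : ℕ} (L : Fin n → Fin n → Fin n) (G : Type) [Group G] [Finite G]
    (hG : Odd (Nat.card G)) (h : Obstructed n L) :
    Obstructed (n * Nat.card G) (fun r c : Fin n × G => (L r.1 c.1, r.2 * c.2)) := by
  obtain ⟨s, t, hs, ht, hn, α, β, γ, hα, hh⟩ := h
  refine ⟨s, t * Nat.card G, hs, ht.mul hG, by rw [hn]; ring, fun r => α r.1, fun r => β r.1,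
    fun r => γ r.1, ?_, ?_⟩
  · intro z
    obtain ⟨r, hr⟩ := hα z
    exact ⟨(r, 1), hr⟩
  · rintro ⟨i, g⟩ ⟨j, g'⟩
    exact hh i j

theorem odd_iff {n : ℕ} (L : Fin n → Fin n → Fin n) (hL : IsLatin L) (G : Type) [Group G]
    [Finite G] (hG : Odd (Nat.card G))
    (h : ¬ Obstructed n L → HasTransversal (fun r c : Fin n × G => (L r.1 c.1, r.2 * c.2))) :
    HasTransversal (fun r c : Fin n × G => (L r.1 c.1, r.2 * c.2)) ↔
      ¬ Obstructed (n * Nat.card G) (fun r c : Fin n × G => (L r.1 c.1, r.2 * c.2)) := by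
  constructor
  · intro h
    have := TH964.FP.transversal_unobstructed _ (TH964.FP.prod_isLatin L hL G) h
    rwa [Nat.card_prod, Nat.card_eq_fintype_card (α := Fin n), Fintype.card_fin] at this
  · intro hO
    exact h (fun hb => hO (obstructed_prod L G hG hb))

theorem almost_all_sq (n : ℕ) (ε : ℝ) (hε : 0 < ε) : ∃ X₀ : ℕ, ∀ X ≥ X₀,
      ({m : ℕ | m < X ∧ ∃ (G : Type) (_ : Group G) (_ : Finite G) (L : Fin n → Fin n → Fin n),
        (Group.IsNilpotent G ∨ (Odd m ∧ Group.IsSolvable G)) ∧ Nat.card G = m ∧ IsLatin L ∧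
        ¬ (HasTransversal (fun r c : Fin n × G => (L r.1 c.1, r.2 * c.2)) ↔
          ¬ Obstructed (n * m) (fun r c : Fin n × G => (L r.1 c.1, r.2 * c.2)))}.ncard : ℝ)
        ≤ ε * X := by
  classical
  obtain ⟨A, hA⟩ : ∃ A : ℕ, (1 / 2 : ℝ) ^ A < ε / 3 :=
    exists_pow_lt_of_lt_one (by positivity) (by norm_num)
  have hF : ∀ a, ∃ e₀, TH964.FP.FC (n * 2 ^ a) e₀ := fun a => TH964.FP.field_case (n * 2 ^ a)
  choose e hE using hF
  obtain ⟨e₀, he₀⟩ : ∃ e₀, ∀ a ≤ A, TH964.FP.FC (n * 2 ^ a) e₀ := by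
    refine ⟨(range (A + 1)).sup e, fun a ha => TH964.FP.FC_mono ?_ (hE a)⟩
    exact Finset.le_sup (f := e) (mem_range.2 (by omega))
  have he₀' : TH964.FP.FC n e₀ := by
    have := he₀ 0 (Nat.zero_le _)
    rwa [pow_zero, mul_one] at this
  obtain ⟨S, hS, hK⟩ := TH964.FP.exists_set (e₀ + 1) (64 * (e₀ + 1) ^ 6) (- Real.log (ε / 3))
  obtain ⟨M, hM⟩ : ∃ M : ℕ, M = ∏ p ∈ S, p := ⟨_, rfl⟩
  obtain ⟨X₀, hX₀⟩ := exists_nat_ge (3 * ((M : ℝ) + 1) / ε)
  refine ⟨X₀, fun X hX => ?_⟩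
  have hsub : {m : ℕ | m < X ∧ ∃ (G : Type) (_ : Group G) (_ : Finite G)
        (L : Fin n → Fin n → Fin n),
        (Group.IsNilpotent G ∨ (Odd m ∧ Group.IsSolvable G)) ∧ Nat.card G = m ∧ IsLatin L ∧
        ¬ (HasTransversal (fun r c : Fin n × G => (L r.1 c.1, r.2 * c.2)) ↔
          ¬ Obstructed (n * m) (fun r c : Fin n × G => (L r.1 c.1, r.2 * c.2)))} ⊆
      ((range X).filter (fun m => ∀ p ∈ S, ¬ p ∣ m) ∪
        (range X).filter (fun m => 2 ^ (A + 1) ∣ m) : Finset ℕ) := by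
    rintro m ⟨hmX, G, _, _, L, htype, hcard, hL, hnot⟩
    rw [Finset.coe_union, Set.mem_union, Finset.mem_coe, Finset.mem_coe, mem_filter, mem_filter]
    by_cases h2 : 2 ^ (A + 1) ∣ m
    · exact Or.inr ⟨mem_range.2 hmX, h2⟩
    · refine Or.inl ⟨mem_range.2 hmX, fun p hp hpm => hnot ?_⟩
      obtain ⟨hpp, hpB, hpq⟩ := hS p hp
      subst hcard
      rcases htype with hnil | ⟨hodd, hsol⟩
      · refine TH964.FP.nil_iff L hL A e₀ he₀ G p (e₀ + 1) h2 hpp ?_ hpm (Nat.le_succ _) hpq hpB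
        have : 64 * 1 ^ 6 ≤ 64 * (e₀ + 1) ^ 6 :=
          Nat.mul_le_mul_left _ (Nat.pow_le_pow_left (by omega) 6)
        omega
      · exact odd_iff L hL G hodd (fun hO => solvable_sq L e₀ (he₀' L hL hO) G p (e₀ + 1) hodd hpp
          hpm (Nat.le_succ _) hpq hpB)
  have h1 := Set.ncard_le_ncard hsub (Finset.finite_toSet _)
  rw [Set.ncard_coe_finset] at h1
  have h1' := h1.trans (Finset.card_union_le _ _)
  have h2 := TH964.FP.sieve S (fun p hp => (hS p hp).1) X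
  rw [← hM] at h2
  have h3 : Real.exp (- ∑ p ∈ S, (p : ℝ)⁻¹) ≤ ε / 3 := by
    rw [← Real.exp_log (show (0 : ℝ) < ε / 3 by positivity)]
    exact Real.exp_le_exp.2 (by linarith)
  have h4 : (M : ℝ) + 1 ≤ ε / 3 * X := by
    have h5 : 3 * ((M : ℝ) + 1) / ε ≤ X := hX₀.trans (by exact_mod_cast hX)
    rw [div_le_iff₀ hε] at h5
    linarith
  have h6 : (X : ℝ) * Real.exp (- ∑ p ∈ S, (p : ℝ)⁻¹) ≤ X * (ε / 3) :=
    mul_le_mul_of_nonneg_left h3 (by positivity)
  have h8 : (((range X).filter (fun m => 2 ^ (A + 1) ∣ m)).card : ℝ) ≤ X * (ε / 3) + 1 := by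
    have h9 := TH964.FP.multiples (2 ^ (A + 1)) X
    have h10 : (((range X).filter (fun m => 2 ^ (A + 1) ∣ m)).card : ℝ)
        ≤ ((X / 2 ^ (A + 1) : ℕ) : ℝ) + 1 := by exact_mod_cast h9
    have h11 : ((X / 2 ^ (A + 1) : ℕ) : ℝ) ≤ (X : ℝ) / ((2 ^ (A + 1) : ℕ) : ℝ) := Nat.cast_div_le
    have h12 : (X : ℝ) / ((2 ^ (A + 1) : ℕ) : ℝ) ≤ X * (ε / 3) := by
      rw [div_eq_mul_inv]
      refine mul_le_mul_of_nonneg_left ?_ (by positivity)
      have h13 : (((2 ^ (A + 1) : ℕ) : ℝ))⁻¹ ≤ (1 / 2 : ℝ) ^ A := by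
        push_cast
        rw [one_div, inv_pow]
        refine inv_anti₀ (by positivity) ?_
        exact pow_le_pow_right₀ (by norm_num) (Nat.le_succ A)
      linarith
    linarith
  have h7 := (Nat.cast_le (α := ℝ)).2 h1'
  push_cast at h7
  refine h7.trans ?_
  linarith

theorem main_sq (n : ℕ) :
    (∀ (R C S : Type) (N : ℕ) (P : R → C → S), Odd N → ¬ Obstructed N P) ∧
    (∀ ε : ℝ, 0 < ε → ∃ X₀ : ℕ, ∀ X ≥ X₀,
      ({m : ℕ | m < X ∧ ∃ (G : Type) (_ : Group G) (_ : Finite G) (L : Fin n → Fin n → Fin n),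
        (Group.IsNilpotent G ∨ (Odd m ∧ Group.IsSolvable G)) ∧ Nat.card G = m ∧ IsLatin L ∧
        ¬ (HasTransversal (fun r c : Fin n × G => (L r.1 c.1, r.2 * c.2)) ↔
          ¬ Obstructed (n * m) (fun r c : Fin n × G => (L r.1 c.1, r.2 * c.2)))}.ncard : ℝ)
        ≤ ε * X) ∧
    ∃ e₀ : ℕ, ∀ L : Fin n → Fin n → Fin n, IsLatin L →
      ∀ (F G : Type) [Field F] [Finite F] [Group G] [Finite G] (N : Subgroup G) [N.Normal]
        (K : Subgroup (G ⧸ N)) [K.Normal] (e : ℕ),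
        Nonempty (K ≃* Multiplicative F) → e₀ ≤ e → e ∣ Nat.card F - 1 →
        64 * e ^ 6 < Nat.card F →
        (HasTransversal (fun x y : N => x * y) → HasTransversal (fun x y : (G ⧸ N) ⧸ K => x * y) →
          ¬ Obstructed n L → HasTransversal (fun r c : Fin n × G => (L r.1 c.1, r.2 * c.2))) ∧
        (Odd (Nat.card G) →
          (HasTransversal (fun r c : Fin n × G => (L r.1 c.1, r.2 * c.2)) ↔
            ¬ Obstructed n L)) := by
  obtain ⟨e₀, he₀⟩ := (TH964.FP.main' n).2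
  refine ⟨TH964.FP.odd_unobstructed', almost_all_sq n, e₀, fun L hL F G _ _ _ _ N _ K _ e hφ he h1
    h2 => ?_⟩
  obtain ⟨g1, -⟩ := (he₀ L hL).2 F (G ⧸ N) K e hφ he h1 h2
  have key : HasTransversal (fun x y : N => x * y) →
      HasTransversal (fun x y : (G ⧸ N) ⧸ K => x * y) →
      ¬ Obstructed n L → HasTransversal (fun r c : Fin n × G => (L r.1 c.1, r.2 * c.2)) :=
    fun hN hK hO => ext2_sq L N hN (g1 hK hO)
  refine ⟨key, fun hG => ⟨TH964.FP.converse L hL hG, key (TH964.FP.odd_complete ?_)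
    (TH964.FP.odd_complete ?_)⟩⟩
  · rw [Subgroup.card_eq_card_quotient_mul_card_subgroup N] at hG
    exact Nat.Odd.of_mul_right hG
  · rw [Subgroup.card_eq_card_quotient_mul_card_subgroup N] at hG
    have := Nat.Odd.of_mul_left hG
    rw [Subgroup.card_eq_card_quotient_mul_card_subgroup K] at this
    exact Nat.Odd.of_mul_left this

end TH964.HC
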