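import Pool.Agent.TH964.FP.DupMain
import Pool.Agent.TH964.HC.Sq

set_option autoImplicit false

/-! Duplexes in products with solvable groups. -/

namespace TH964.HC

open Finset TH964.HP TH964.FP

/-- From a transversal of the product of the extension. -/
theorem duplex_of_ext {n : ℕ} (L : Fin n → Fin n → Fin n) (f : Fin n → Fin n → ZMod 2)
    (ν : Fin n × ZMod 2 ≃ Fin (n * 2)) (M : Fin (n * 2) → Fin (n * 2) → Fin (n * 2))
    (hMν : ∀ r c, M (ν r) (ν c) = ν (twist L f r c)) (G : Type) [Group G]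
    (hT : HasTransversal (fun r c : Fin (n * 2) × G => (M r.1 c.1, r.2 * c.2))) :
    HasDuplex (fun r c : Fin n × G => (L r.1 c.1, r.2 * c.2)) := by
  refine duplex_of_twist _ (fun r c => f r.1 c.1) ?_
  let E : (Fin n × G) × ZMod 2 ≃ Fin (n * 2) × G :=
    ⟨fun z => (ν (z.1.1, z.2), z.1.2), fun w => (((ν.symm w.1).1, w.2), (ν.symm w.1).2),
      fun z => by simp, fun w => by simp⟩
  refine hasTransversal_iso _ _ E E E ?_ hT
  rintro ⟨⟨i, x⟩, ε⟩ ⟨⟨j, y⟩, δ⟩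
  exact Prod.ext (hMν (i, ε) (j, δ)).symm rfl

theorem sol_duplex {n : ℕ} (hn : 2 ≤ n) (L : Fin n → Fin n → Fin n) (hL : IsLatin L) (e₀ : ℕ)
    (he₀ : FC (n * 2) e₀) (G : Type) [Group G] [Finite G] [Group.IsSolvable G]
    (p e : ℕ) (hG : Odd (Nat.card G)) (hp : p.Prime)
    (hpG : p ∣ Nat.card G) (he : e₀ ≤ e) (h1 : e ∣ p - 1) (h3 : 64 * e ^ 6 < p) :
    HasDuplex (fun r c : Fin n × G => (L r.1 c.1, r.2 * c.2)) := by
  obtain ⟨f, ν, M, hM, hMO, hMν⟩ := exists_ext hn L hL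
  exact duplex_of_ext L f ν M hMν G
    (solvable_sq M e₀ (he₀ M hM hMO) G p e hG hp hpG he h1 h3)

theorem almost_all_duplex2 (n : ℕ) (hn : 2 ≤ n) (ε : ℝ) (hε : 0 < ε) : ∃ X₀ : ℕ, ∀ X ≥ X₀,
      ({m : ℕ | m < X ∧ ∃ (G : Type) (_ : Group G) (_ : Finite G) (L : Fin n → Fin n → Fin n),
        (Group.IsNilpotent G ∨ (Odd m ∧ Group.IsSolvable G)) ∧ Nat.card G = m ∧ IsLatin L ∧
        ¬ HasDuplex (fun r c : Fin n × G => (L r.1 c.1, r.2 * c.2))}.ncard : ℝ) ≤ ε * X := by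
  classical
  obtain ⟨A, hA⟩ : ∃ A : ℕ, (1 / 2 : ℝ) ^ A < ε / 3 :=
    exists_pow_lt_of_lt_one (by positivity) (by norm_num)
  have hF : ∀ a, ∃ e₀, FC (n * 2 ^ a * 2) e₀ := fun a => field_case (n * 2 ^ a * 2)
  choose e hE using hF
  obtain ⟨e₀, he₀⟩ : ∃ e₀, ∀ a ≤ A, FC (n * 2 ^ a * 2) e₀ := by
    refine ⟨(range (A + 1)).sup e, fun a ha => FC_mono ?_ (hE a)⟩
    exact Finset.le_sup (f := e) (mem_range.2 (by omega))
  obtain ⟨S, hS, hK⟩ := exists_set (e₀ + 1) (64 * (e₀ + 1) ^ 6) (- Real.log (ε / 3))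
  obtain ⟨M, hM⟩ : ∃ M : ℕ, M = ∏ p ∈ S, p := ⟨_, rfl⟩
  obtain ⟨X₀, hX₀⟩ := exists_nat_ge (3 * ((M : ℝ) + 1) / ε)
  refine ⟨X₀, fun X hX => ?_⟩
  have hsub : {m : ℕ | m < X ∧ ∃ (G : Type) (_ : Group G) (_ : Finite G)
        (L : Fin n → Fin n → Fin n), (Group.IsNilpotent G ∨ (Odd m ∧ Group.IsSolvable G)) ∧ Nat.card G = m ∧ IsLatin L ∧
        ¬ HasDuplex (fun r c : Fin n × G => (L r.1 c.1, r.2 * c.2))} ⊆
      ((range X).filter (fun m => ∀ p ∈ S, ¬ p ∣ m) ∪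
        (range X).filter (fun m => 2 ^ (A + 1) ∣ m) : Finset ℕ) := by
    rintro m ⟨hmX, G, _, _, L, htype, hcard, hL, hnot⟩
    rw [Finset.coe_union, Set.mem_union, Finset.mem_coe, Finset.mem_coe, mem_filter, mem_filter]
    by_cases h2 : 2 ^ (A + 1) ∣ m
    · exact Or.inr ⟨mem_range.2 hmX, h2⟩
    · refine Or.inl ⟨mem_range.2 hmX, fun p hp hpm => hnot ?_⟩
      obtain ⟨hpp, hpB, hpq⟩ := hS p hp
      subst hcard
      rcases htype with hnil | ⟨hodd, hsol⟩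
      · refine nil_duplex hn L hL A e₀ he₀ G p (e₀ + 1) h2 hpp ?_ hpm (Nat.le_succ _) hpq hpB
        have : 64 * 1 ^ 6 ≤ 64 * (e₀ + 1) ^ 6 :=
          Nat.mul_le_mul_left _ (Nat.pow_le_pow_left (by omega) 6)
        omega
      · exact sol_duplex hn L hL e₀ (by simpa using he₀ 0 (Nat.zero_le _)) G p (e₀ + 1) hodd hpp hpm
          (Nat.le_succ _) hpq hpB
  have h1 := Set.ncard_le_ncard hsub (Finset.finite_toSet _)
  rw [Set.ncard_coe_finset] at h1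
  have h1' := h1.trans (Finset.card_union_le _ _)
  have h2 := sieve S (fun p hp => (hS p hp).1) X
  rw [← hM] at h2
  have h3 : Real.exp (- ∑ p ∈ S, (p : ℝ)⁻¹) ≤ ε / 3 := by
    rw [← Real.exp_log (show (0 : ℝ) < ε / 3 by positivity)]
    exact Real.exp_le_exp.2 (by linarith)
  have h4 : (M : ℝ) + 1 ≤ ε / 3 * X := by
    have h5 : 3 * ((M : ℝ) + 1) / ε ≤ X := hX₀.trans (by exact_mod_cast hX)
    rw [div_le_iff₀ hε] at h5
    linarith
  have h6 : (X : ℝ) * Real.exp (- ∑ p ∈ S, (p : ℝ)⁻¹) ≤ X * (ε / 3) :=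
    mul_le_mul_of_nonneg_left h3 (by positivity)
  have h8 : (((range X).filter (fun m => 2 ^ (A + 1) ∣ m)).card : ℝ) ≤ X * (ε / 3) + 1 := by
    have h9 := multiples (2 ^ (A + 1)) X
    have h10 : (((range X).filter (fun m => 2 ^ (A + 1) ∣ m)).card : ℝ)
        ≤ ((X / 2 ^ (A + 1) : ℕ) : ℝ) + 1 := by exact_mod_cast h9
    have h11 : ((X / 2 ^ (A + 1) : ℕ) : ℝ) ≤ (X : ℝ) / ((2 ^ (A + 1) : ℕ) : ℝ) := Nat.cast_div_le
    have h12 : (X : ℝ) / ((2 ^ (A + 1) : ℕ) : ℝ) ≤ X * (ε / 3) := by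
      rw [div_eq_mul_inv]
      refine mul_le_mul_of_nonneg_left ?_ (by positivity)
      have h13 : (((2 ^ (A + 1) : ℕ) : ℝ))⁻¹ ≤ (1 / 2 : ℝ) ^ A := by
        push_cast
        rw [one_div, inv_pow]
        refine inv_anti₀ (by positivity) ?_
        exact pow_le_pow_right₀ (by norm_num) (Nat.le_succ A)
      linarith
    linarith
  have h7 := (Nat.cast_le (α := ℝ)).2 h1'
  push_cast at h7
  refine h7.trans ?_
  linarith

/-- Groups with a normal subquotient isomorphic to the additive group of a finite field. -/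
theorem group_duplex2 (n : ℕ) (hn : 2 ≤ n) : ∃ e₀ : ℕ, ∀ L : Fin n → Fin n → Fin n, IsLatin L →
    ∀ (F G : Type) [Field F] [Finite F] [Group G] [Finite G] (N : Subgroup G) [N.Normal]
      (K : Subgroup (G ⧸ N)) [K.Normal] (e : ℕ),
      Nonempty (K ≃* Multiplicative F) → e₀ ≤ e → e ∣ Nat.card F - 1 → 64 * e ^ 6 < Nat.card F →
      HasTransversal (fun x y : N => x * y) → HasTransversal (fun x y : (G ⧸ N) ⧸ K => x * y) →
      HasDuplex (fun r c : Fin n × G => (L r.1 c.1, r.2 * c.2)) := by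
  obtain ⟨e₀, he₀⟩ := (main_sq (n * 2)).2.2
  refine ⟨e₀, fun L hL F G _ _ _ _ N _ K _ e hφ he h1 h2 hN hK => ?_⟩
  obtain ⟨f, ν, M, hM, hMO, hMν⟩ := exists_ext hn L hL
  exact duplex_of_ext L f ν M hMν G ((he₀ M hM F G N K e hφ he h1 h2).1 hN hK hMO)

end TH964.HC
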