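import Mathlib.FieldTheory.Finite.GaloisField
import Mathlib.GroupTheory.Solvable
import Mathlib.GroupTheory.Perm.Cycle.Type
import Mathlib.Algebra.Module.ZMod

set_option autoImplicit false

/-! Elementary abelian normal subgroups of solvable groups. -/

namespace TH964.HC

/-- A nontrivial solvable group has a nontrivial abelian normal subgroup. -/
theorem exists_abelian_normal (G : Type) [Group G] [Group.IsSolvable G] [Nontrivial G] :
    ∃ A : Subgroup G, A.Normal ∧ A ≠ ⊥ ∧ ∀ a ∈ A, ∀ b ∈ A, a * b = b * a := by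
  classical
  have hex : ∃ n, derivedSeries G n = ⊥ := Group.IsSolvable.solvable
  obtain ⟨m, hm⟩ : ∃ m, m = Nat.find hex := ⟨_, rfl⟩
  have hs := Nat.find_spec hex
  rw [← hm] at hs
  have h0 : m ≠ 0 := by
    intro h
    rw [h, derivedSeries_zero] at hs
    exact top_ne_bot hs
  obtain ⟨k, rfl⟩ := Nat.exists_eq_succ_of_ne_zero h0
  refine ⟨derivedSeries G k, derivedSeries_normal G k, Nat.find_min hex (by omega), ?_⟩
  rw [Nat.succ_eq_add_one, derivedSeries_succ, Subgroup.commutator_eq_bot_iff_le_centralizer] at hs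
  intro a ha b hb
  exact ((Subgroup.mem_centralizer_iff.1 (hs ha)) b hb).symm

theorem elem_add (p : ℕ) [Fact p.Prime] (V : Type) [AddCommGroup V] [Finite V] [Nontrivial V]
    (hp : ∀ v : V, p • v = 0) : ∃ j, j ≠ 0 ∧ Nonempty (V ≃+ GaloisField p j) := by
  classical
  let _ : Module (ZMod p) V := AddCommGroup.zmodModule (n := p) hp
  have hfin : Module.Finite (ZMod p) V := Module.Finite.of_finite
  obtain ⟨j, hj⟩ : ∃ j, j = Module.finrank (ZMod p) V := ⟨_, rfl⟩
  have hcard : Nat.card V = p ^ j := by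
    rw [Module.natCard_eq_pow_finrank (K := ZMod p), Nat.card_zmod, hj]
  have hj0 : j ≠ 0 := by
    intro h
    rw [h, pow_zero] at hcard
    have : 1 < Nat.card V := Finite.one_lt_card
    omega
  obtain ⟨e⟩ : Nonempty (V ≃ₗ[ZMod p] GaloisField p j) :=
    FiniteDimensional.nonempty_linearEquiv_of_finrank_eq (by rw [GaloisField.finrank p hj0, hj])
  exact ⟨j, hj0, ⟨e.toAddEquiv⟩⟩

theorem elem_comm (p : ℕ) [Fact p.Prime] (N : Type) [CommGroup N] [Finite N] [Nontrivial N]
    (hp : ∀ a : N, a ^ p = 1) :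
    ∃ j, j ≠ 0 ∧ Nonempty (N ≃* Multiplicative (GaloisField p j)) := by
  obtain ⟨j, hj, ⟨e⟩⟩ := elem_add p (Additive N) (fun v => congrArg Additive.ofMul (hp v.toMul))
  refine ⟨j, hj, ⟨{ toFun := fun x => Multiplicative.ofAdd (e (Additive.ofMul x))
                    invFun := fun y => Additive.toMul (e.symm y.toAdd)
                    left_inv := fun x => by simp
                    right_inv := fun x => by simp
                    map_mul' := fun x y => ?_ }⟩⟩
  rw [ofMul_mul, map_add, ofAdd_add]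

theorem elem_iso (p : ℕ) [Fact p.Prime] (N : Type) [h : Group N] [Finite N] [Nontrivial N]
    (hc : ∀ a b : N, a * b = b * a) (hp : ∀ a : N, a ^ p = 1) :
    ∃ j, j ≠ 0 ∧ Nonempty (N ≃* Multiplicative (GaloisField p j)) := by
  let h' : CommGroup N := { h with mul_comm := hc }
  exact @elem_comm p _ N h' _ _ hp

/-- The elements of order dividing `p` in an abelian normal subgroup. -/
theorem exists_elem {G : Type} [Group G] [Finite G] (A : Subgroup G) (hA : A.Normal)
    (hc : ∀ a ∈ A, ∀ b ∈ A, a * b = b * a) (p : ℕ) [Fact p.Prime] (hpA : p ∣ Nat.card A) :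
    ∃ N : Subgroup G, N.Normal ∧ ∃ j, j ≠ 0 ∧ Nonempty (N ≃* Multiplicative (GaloisField p j)) := by
  classical
  let N : Subgroup G :=
    { carrier := {x | x ∈ A ∧ x ^ p = 1}
      mul_mem' := fun {a b} ha hb => ⟨A.mul_mem ha.1 hb.1, by
        have : Commute a b := hc a ha.1 b hb.1
        rw [this.mul_pow, ha.2, hb.2, one_mul]⟩
      one_mem' := ⟨A.one_mem, one_pow p⟩
      inv_mem' := fun {a} ha => ⟨A.inv_mem ha.1, by rw [inv_pow, ha.2, inv_one]⟩ }
  have hNN : N.Normal := ⟨fun x hx g => ⟨hA.conj_mem x hx.1 g, by rw [conj_pow, hx.2]; group⟩⟩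
  obtain ⟨x, hx⟩ := exists_prime_orderOf_dvd_card' p hpA
  have hx1 : (x : G) ∈ N := ⟨x.2, by
    have := pow_orderOf_eq_one x
    rw [hx] at this
    exact congrArg Subtype.val this⟩
  have hx2 : (⟨x, hx1⟩ : N) ≠ 1 := by
    intro h
    have h1 : (x : G) = 1 := congrArg Subtype.val h
    have h2 : x = 1 := Subtype.ext h1
    rw [h2, orderOf_one] at hx
    exact (Fact.out : p.Prime).one_lt.ne hx
  have : Nontrivial N := ⟨⟨_, _, hx2⟩⟩
  refine ⟨N, hNN, elem_iso p N (fun a b => Subtype.ext (hc _ a.2.1 _ b.2.1))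
    (fun a => Subtype.ext a.2.2)⟩

end TH964.HC
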