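import Pool.Agent.TH964.HC.Tk
import Pool.Agent.TH964.FP.Enum

set_option autoImplicit false

/-! Enumerations from integral weights on hypercubes; generic vectors. -/

namespace TH964.HC

open Finset TH964.FP

section generic

variable {F : Type} [Field F] [Fintype F] [DecidableEq F]

theorem exists_genericK (V : Type) [AddCommGroup V] [Module F V] [Fintype V] (O K : Type)
    [Fintype O] [Fintype K]
    (D : K → O → V →ₗ[F] F) (h0 : ∀ k o, ∃ w, D k o w ≠ 0)
    (hsep : ∀ k o o', o ≠ o' → Sep (D k o) (D k o')) (G : Subgroup Fˣ) (e : ℕ)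
    (hG : Nat.card G * e = Fintype.card F - 1)
    (he : 2 * (Fintype.card K * Fintype.card O ^ 2) ≤ e)
    (hq : 2 * (Fintype.card K * Fintype.card O ^ 2) + 1 < Fintype.card F) :
    ∃ v, (∀ k o, D k o v ≠ 0) ∧
      ∀ k o o', o ≠ o' → ∀ g ∈ G, D k o v ≠ (g : F) * D k o' v := by
  classical
  let I := (K × O) ⊕ (K × {p : O × O // p.1 ≠ p.2} × G)
  let E : I → V →ₗ[F] F := Sum.elim (fun p => D p.1 p.2)
    (fun p => D p.1 p.2.1.1.1 - ((p.2.2 : Fˣ) : F) • D p.1 p.2.1.1.2)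
  have hE : ∀ i, ∃ w, E i w ≠ 0 := by
    rintro (⟨k, o⟩ | ⟨k, ⟨⟨o, o'⟩, hne⟩, g⟩)
    · exact h0 k o
    · obtain ⟨w, hw⟩ := hsep k o o' hne
      refine ⟨w, ?_⟩
      simp only [E, Sum.elim_inr, LinearMap.sub_apply, LinearMap.smul_apply, smul_eq_mul]
      rcases hw with ⟨h1, h2⟩ | ⟨h1, h2⟩
      · rw [h1, zero_sub]
        exact neg_ne_zero.2 (mul_ne_zero (Units.ne_zero _) h2)
      · rw [h2, mul_zero, sub_zero]
        exact h1
  have hcard : Fintype.card I < Fintype.card F := by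
    have c1 : Fintype.card {p : O × O // p.1 ≠ p.2} ≤ Fintype.card O ^ 2 := by
      rw [sq, ← Fintype.card_prod]
      exact Fintype.card_subtype_le _
    have c2 : Fintype.card I = Fintype.card K * Fintype.card O
        + Fintype.card K * (Fintype.card {p : O × O // p.1 ≠ p.2} * Fintype.card G) := by
      simp [I]
    rw [c2]
    have c3 : Fintype.card G = Nat.card G := (Nat.card_eq_fintype_card).symm
    rw [c3]
    have c4 : Fintype.card K * (Fintype.card {p : O × O // p.1 ≠ p.2} * Nat.card G)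
        ≤ Fintype.card K * (Fintype.card O ^ 2 * Nat.card G) :=
      Nat.mul_le_mul_left _ (Nat.mul_le_mul_right _ c1)
    have c5 : 2 * (Fintype.card K * (Fintype.card O ^ 2 * Nat.card G)) ≤ Fintype.card F - 1 := by
      rw [← hG]
      calc 2 * (Fintype.card K * (Fintype.card O ^ 2 * Nat.card G))
          = Nat.card G * (2 * (Fintype.card K * Fintype.card O ^ 2)) := by ring
        _ ≤ Nat.card G * e := Nat.mul_le_mul_left _ he
    have c6 : Fintype.card K * Fintype.card O ≤ Fintype.card K * Fintype.card O ^ 2 :=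
      Nat.mul_le_mul_left _ (Nat.le_self_pow (by norm_num) _)
    omega
  obtain ⟨v, hv⟩ := exists_avoid V I E hE hcard
  refine ⟨v, fun k o => hv (Sum.inl (k, o)), fun k o o' hne g hg h => ?_⟩
  have := hv (Sum.inr (k, ⟨(o, o'), hne⟩, ⟨g, hg⟩))
  apply this
  simp only [E, Sum.elim_inr, LinearMap.sub_apply, LinearMap.smul_apply, smul_eq_mul]
  rw [h, sub_self]

end generic

theorem equiv_overX {X : Type} [Fintype X] [DecidableEq X] {n : ℕ} (pc nc : X → ℕ)
    (κ : X → Fin n)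
    (h : ∀ k, ∑ c, (if κ c = k then pc c else 0) = 1 + ∑ c, (if κ c = k then nc c else 0)) :
    ∃ φ : (Σ c, Fin (pc c)) ≃ Fin n ⊕ (Σ c, Fin (nc c)),
      ∀ x, κ x.1 = Sum.elim id (fun y => κ y.1) (φ x) := by
  have hc : ∀ k, Nonempty ({x : Σ c, Fin (pc c) // κ x.1 = k}
      ≃ {y : Fin n ⊕ (Σ c, Fin (nc c)) // Sum.elim id (fun y => κ y.1) y = k}) := by
    intro k
    refine ⟨Fintype.equivOfCardEq ?_⟩
    rw [card_sigma_fibre, h k, Fintype.card_congr (Equiv.subtypeSum), Fintype.card_sum]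
    congr 1
    · exact (Fintype.card_eq_one_iff.2 ⟨⟨k, rfl⟩, fun y => Subtype.ext y.2⟩).symm
    · exact (card_sigma_fibre nc κ k).symm
  refine ⟨Equiv.ofFiberEquiv (f := fun x : (Σ c, Fin (pc c)) => κ x.1)
    (g := Sum.elim id (fun y : (Σ c, Fin (nc c)) => κ y.1)) (fun k => (hc k).some),
    fun x => ?_⟩
  exact (Equiv.ofFiberEquiv_map (f := fun x : (Σ c, Fin (pc c)) => κ x.1)
    (g := Sum.elim id (fun y : (Σ c, Fin (nc c)) => κ y.1)) (fun k => (hc k).some) x).symm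

theorem exists_structureH {n d : ℕ} (hn : 0 < n) (L : (Fin (d + 2) → Fin n) → Fin n)
    (w : (Fin (d + 2) → Fin n) → ℤ)
    (hw : ∀ s k, ∑ c, (if kp L s c = k then w c else 0) = 1) :
    ∃ (P Q : ℕ) (cp : Fin P → Fin (d + 2) → Fin n) (cn : Fin Q → Fin (d + 2) → Fin n)
      (ρ : Fin 3 ⊕ Fin d → (Fin P ≃ Fin n ⊕ Fin Q)), 3 ≤ P + Q ∧
      (∀ s a, kp L s (cp a) = Sum.elim id (fun f => kp L s (cn f)) (ρ s a)) ∧
      (∀ a : Fin P, (a : ℕ) = 0 → ∃ z, ρ (Sum.inl 2) a = Sum.inl z) ∧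
      (∀ (a : Fin P) (f : Fin Q), (a : ℕ) = 0 → (f : ℕ) + 1 = Q →
        ρ (Sum.inl 1) a ≠ Sum.inr f) := by
  classical
  obtain ⟨nc, hnc⟩ : ∃ nc : (Fin (d + 2) → Fin n) → ℕ, nc = fun c => (w c).natAbs + 2 := ⟨_, rfl⟩
  obtain ⟨pc, hpc⟩ : ∃ pc : (Fin (d + 2) → Fin n) → ℕ, pc = fun c => ((nc c : ℤ) + w c).toNat :=
    ⟨_, rfl⟩
  have hp : ∀ c, (pc c : ℤ) = nc c + w c := by
    intro c
    rw [hpc]
    refine Int.toNat_of_nonneg ?_
    rw [hnc]
    have := neg_abs_le (w c)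
    rw [Int.abs_eq_natAbs] at this
    push_cast at this ⊢
    omega
  have hcount : ∀ s k, ∑ c, (if kp L s c = k then pc c else 0)
      = 1 + ∑ c, (if kp L s c = k then nc c else 0) := by
    intro s k
    zify
    rw [← hw s k, ← Finset.sum_add_distrib]
    refine Finset.sum_congr rfl (fun c _ => ?_)
    split_ifs
    · rw [hp]; ring
    · ring
  have hφ := fun s => equiv_overX pc nc (kp L s) (hcount s)
  choose φ hφ using hφ
  let POS := Σ c, Fin (pc c)
  let NEG := Σ c, Fin (nc c)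
  let c₀ : Fin (d + 2) → Fin n := fun _ => ⟨0, hn⟩
  let a₀ : POS := (φ (Sum.inl 2)).symm (Sum.inl ⟨0, hn⟩)
  have hn2 : 1 < nc c₀ := by rw [hnc]; simp only; omega
  let n0 : NEG := ⟨c₀, ⟨0, by omega⟩⟩
  let n1 : NEG := ⟨c₀, ⟨1, hn2⟩⟩
  have hn01 : n0 ≠ n1 := by
    intro h
    have := Sigma.mk.inj_iff.1 h
    have h2 := eq_of_heq this.2
    have h3 := congrArg Fin.val h2
    simp at h3
  obtain ⟨f₁, hf₁⟩ : ∃ f₁ : NEG, φ (Sum.inl 1) a₀ ≠ Sum.inr f₁ := by
    by_contra hno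
    push Not at hno
    have h1 := hno n0
    rw [hno n1] at h1
    exact hn01 (Sum.inr_injective h1).symm
  have hP0 : 0 < Fintype.card POS := Fintype.card_pos_iff.2 ⟨a₀⟩
  have hQ2 : 2 ≤ Fintype.card NEG := by
    have : Nontrivial NEG := ⟨⟨n0, n1, hn01⟩⟩
    exact Fintype.one_lt_card
  obtain ⟨eP, heP⟩ := enum_with a₀ 0 hP0
  obtain ⟨eQ, heQ⟩ := enum_with f₁ (Fintype.card NEG - 1) (by omega)
  refine ⟨Fintype.card POS, Fintype.card NEG, fun a => (eP.symm a).1, fun f => (eQ.symm f).1,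
    fun s => eP.symm.trans ((φ s).trans (Equiv.sumCongr (Equiv.refl _) eQ)), by omega, ?_, ?_, ?_⟩
  · intro s a
    rw [hφ]
    simp only [Equiv.trans_apply]
    rcases (φ s) (eP.symm a) with z | f
    · simp
    · simp
  · intro a ha
    have : eP.symm a = a₀ := by
      rw [Equiv.symm_apply_eq]
      exact Fin.ext (by rw [ha, heP])
    refine ⟨⟨0, hn⟩, ?_⟩
    simp only [Equiv.trans_apply, this]
    have h2 : φ (Sum.inl 2) a₀ = Sum.inl ⟨0, hn⟩ := (φ (Sum.inl 2)).apply_symm_apply _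
    rw [h2]
    rfl
  · intro a f ha hf h
    have h1 : eP.symm a = a₀ := by
      rw [Equiv.symm_apply_eq]
      exact Fin.ext (by rw [ha, heP])
    have h2 : eQ f₁ = f := Fin.ext (by rw [heQ]; omega)
    simp only [Equiv.trans_apply, h1] at h
    apply hf₁
    rcases hh : φ (Sum.inl 1) a₀ with z | g
    · rw [hh] at h
      simp at h
    · rw [hh] at h
      simp only [Equiv.sumCongr_apply, Sum.map_inr, Sum.inr.injEq] at h
      rw [← h2] at h
      rw [eQ.injective h]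

/-- The classes of `kp` are those of `cls`. -/
def idx {d : ℕ} : Fin 3 ⊕ Fin d → Option (Fin (d + 2))
  | Sum.inl 0 => some 0
  | Sum.inl 1 => some 1
  | Sum.inl 2 => none
  | Sum.inr k => some k.succ.succ

theorem kp_eq {n d : ℕ} (L : (Fin (d + 2) → Fin n) → Fin n) (s : Fin 3 ⊕ Fin d) :
    kp L s = cls L (idx s) := by
  match s with
  | Sum.inl 0 => rfl
  | Sum.inl 1 => rfl
  | Sum.inl 2 => rfl
  | Sum.inr k => rfl

theorem big_weightsB {d n : ℕ} (hn : 0 < n) (L : (Fin (d + 2) → Fin n) → Fin n)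
    (hL : IsHyper L) (w : (Fin (d + 2) → Fin n) → ℤ)
    (hw : ∀ κ i, (∑ x, if cls L κ x = i then w x else 0) = 1) (B : ℕ) :
    ∃ m₀ : ℕ, ∀ e ≥ m₀, ∃ W : (Fin (d + 2) → Fin n) → ℕ, (∀ c, B ≤ W c) ∧
      ∀ κ i, (∑ x, if cls L κ x = i then W x else 0) = e := by
  classical
  obtain ⟨C, hC⟩ : ∃ C : ℕ, C = Fintype.card {x : Fin (d + 2) → Fin n // L x = ⟨0, hn⟩} :=
    ⟨_, rfl⟩
  have hcount : ∀ κ i, Fintype.card {x : Fin (d + 2) → Fin n // cls L κ x = i} = C := by
    intro κ i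
    rcases κ with _ | k
    · have h1 := card_class L hL 0 ⟨0, hn⟩ i
      have h2 := card_class L hL 0 ⟨0, hn⟩ ⟨0, hn⟩
      rw [hC, ← h2, h1]
      rfl
    · rw [hC, ← card_class L hL k i ⟨0, hn⟩]
      rfl
  have hC0 : 0 < C := by
    rw [← hcount (some 0) ⟨0, hn⟩]
    exact Fintype.card_pos_iff.2 ⟨⟨fun _ => ⟨0, hn⟩, rfl⟩⟩
  have hone : ∀ κ i (y : ℤ), (∑ x, if cls L κ x = i then y else 0) = C * y := by
    intro κ i y
    rw [← Finset.sum_filter, Finset.sum_const, ← hcount κ i, Fintype.card_subtype, nsmul_eq_mul]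
  obtain ⟨K, hK⟩ : ∃ K : ℕ, ∀ c, |w c| ≤ K := by
    refine ⟨∑ c, (w c).natAbs, fun c => ?_⟩
    have h1 : (w c).natAbs ≤ ∑ c, (w c).natAbs :=
      Finset.single_le_sum (f := fun c => (w c).natAbs) (fun _ _ => Nat.zero_le _) (mem_univ c)
    rw [Int.abs_eq_natAbs]
    exact_mod_cast h1
  refine ⟨C * (C * K + B) + C, fun e he => ?_⟩
  obtain ⟨t, r, hr, het⟩ : ∃ t r : ℕ, r < C ∧ e = C * t + r :=
    ⟨e / C, e % C, Nat.mod_lt _ hC0, (Nat.div_add_mod e C).symm⟩
  have ht : C * K + B ≤ t := by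
    by_contra hlt
    push Not at hlt
    have h1 : C * t + r < C * (t + 1) := by rw [mul_add, mul_one]; omega
    have h2 : C * (t + 1) ≤ C * (C * K + B) := Nat.mul_le_mul_left _ hlt
    omega
  obtain ⟨v, hv⟩ : ∃ v : (Fin (d + 2) → Fin n) → ℤ, v = fun c => (t : ℤ) + r * w c := ⟨_, rfl⟩
  have hvB : ∀ c, (B : ℤ) ≤ v c := by
    intro c
    have h1 : |(r : ℤ) * w c| ≤ C * K := by
      rw [abs_mul]
      have h1 : |(r : ℤ)| ≤ C := by
        rw [abs_of_nonneg (by positivity)]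
        exact_mod_cast hr.le
      exact mul_le_mul h1 (hK c) (abs_nonneg _) (by positivity)
    have h2 := (abs_le.1 h1).1
    have h3 : (C : ℤ) * K + B ≤ t := by exact_mod_cast ht
    rw [hv]; simp only; linarith
  have hto : ∀ c, ((v c).toNat : ℤ) = v c := fun c =>
    Int.toNat_of_nonneg ((Int.natCast_nonneg B).trans (hvB c))
  refine ⟨fun c => (v c).toNat, fun c => ?_, fun κ i => ?_⟩
  · zify
    rw [hto]
    exact hvB c
  · zify
    simp_rw [hto]
    have : ∀ c, (if cls L κ c = i then v c else 0)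
        = (if cls L κ c = i then (t : ℤ) else 0) + r * (if cls L κ c = i then w c else 0) := by
      intro c
      rw [hv]
      split_ifs <;> simp
    simp_rw [this, Finset.sum_add_distrib, ← Finset.mul_sum]
    rw [hone, hw, het]
    push_cast
    ring

end TH964.HC
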