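import Pool.Agent.TH964.HC.Bd
import Pool.Agent.TH964.HC.Build
import Pool.Agent.TH964.FP.Even

set_option autoImplicit false

/-! Products of Latin hypercubes with groups. -/

namespace TH964.HC

open Finset

theorem param {X R S : Type} {d : ℕ} (hd : 0 < d) [Finite X] [Finite R] [Finite S]
    (P : (Fin d → R) → S) (r : Fin d → X → R) (s : X → S) (hr : ∀ k, Function.Surjective (r k))
    (hs : Function.Surjective s) (h : ∀ x, P (fun k => r k x) = s x)
    (h1 : Nat.card X ≤ Nat.card R) (h3 : Nat.card X ≤ Nat.card S) : HasTransversalH P := by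
  have hb : ∀ k, Function.Bijective (r k) := fun k => (hr k).bijective_of_nat_card_le h1
  let e := Equiv.ofBijective _ (hb ⟨0, hd⟩)
  refine ⟨fun i k => r k (e.symm i), fun k => (hb k).comp e.symm.bijective, ?_⟩
  have : (fun i => P ((fun i k => r k (e.symm i)) i)) = s ∘ e.symm := by
    funext i
    exact h _
  rw [this]
  exact (hs.bijective_of_nat_card_le h3).comp e.symm.bijective

theorem conj_maps {G : Type} [Group G] (N : Subgroup G) [N.Normal] : ∀ (d : ℕ) (s : Fin d → G),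
    ∃ c : Fin d → (N ≃ N), ∀ z : Fin d → N,
      (List.ofFn (fun k => s k * (c k (z k) : G))).prod
        = (List.ofFn s).prod * (((List.ofFn z).prod : N) : G) := by
  intro d
  induction d with
  | zero => intro s; exact ⟨fun k => k.elim0, fun z => by simp⟩
  | succ d ih =>
    intro s
    obtain ⟨c, hc⟩ := ih (fun k => s k.succ)
    obtain ⟨S, hS⟩ : ∃ S : G, S = (List.ofFn (fun k : Fin d => s k.succ)).prod := ⟨_, rfl⟩
    refine ⟨Fin.cons (MulAut.conjNormal S).toEquiv c, fun z => ?_⟩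
    rw [List.ofFn_succ, List.ofFn_succ, List.ofFn_succ, List.prod_cons, List.prod_cons,
      List.prod_cons]
    simp only [Fin.cons_zero, Fin.cons_succ]
    rw [hc (fun k => z k.succ), ← hS]
    have : (((MulAut.conjNormal S).toEquiv (z 0) : N) : G) = S * z 0 * S⁻¹ :=
      MulAut.conjNormal_apply S (z 0)
    rw [this, Subgroup.coe_mul]
    group

theorem ext_transversalH {d n : ℕ} (hd : 0 < d) (L : (Fin d → Fin n) → Fin n) {G : Type}
    [Group G] [Finite G] (N : Subgroup G) [hNn : N.Normal]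
    (hQ : HasTransversalH (fun x : Fin d → G ⧸ N => (List.ofFn x).prod))
    (h : HasTransversalH (fun x : Fin d → Fin n × N => (L (fun k => (x k).1),
      (List.ofFn (fun k => (x k).2)).prod))) :
    HasTransversalH (fun x : Fin d → Fin n × G => (L (fun k => (x k).1),
      (List.ofFn (fun k => (x k).2)).prod)) := by
  classical
  obtain ⟨θ, hθ1, hθ2⟩ := hQ
  obtain ⟨T, hT1, hT2⟩ := h
  let s : G ⧸ N → G := Quotient.out
  have hs : ∀ t : G ⧸ N, ((s t : G) : G ⧸ N) = t := fun t => QuotientGroup.out_eq' t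
  have hcm := fun t => conj_maps N d (fun k => s (θ t k))
  choose c hc using hcm
  have hcard : Nat.card ((G ⧸ N) × (Fin n × N)) ≤ Nat.card (Fin n × G) := by
    rw [Nat.card_prod, Nat.card_prod, Nat.card_prod,
      Subgroup.card_eq_card_quotient_mul_card_subgroup N]
    exact le_of_eq (by ring)
  refine param hd (X := (G ⧸ N) × (Fin n × N)) _
    (fun k q => ((T q.2 k).1, s (θ q.1 k) * (c q.1 k (T q.2 k).2 : G)))
    (fun q => (L (fun k => (T q.2 k).1), (List.ofFn (fun k => s (θ q.1 k))).prod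
      * (((List.ofFn (fun k => (T q.2 k).2)).prod : N) : G))) ?_ ?_ ?_ hcard hcard
  · rintro k ⟨i, g⟩
    obtain ⟨t, ht⟩ := (hθ1 k).2 (g : G ⧸ N)
    simp only at ht
    have hmem : (s (θ t k))⁻¹ * g ∈ N := by
      refine QuotientGroup.eq.1 ?_
      rw [hs, ht]
    obtain ⟨q, hq⟩ := (hT1 k).2 (i, (c t k).symm ⟨_, hmem⟩)
    simp only at hq
    refine ⟨(t, q), ?_⟩
    simp only [hq, Equiv.apply_symm_apply, mul_inv_cancel_left]
  · rintro ⟨j, g⟩
    obtain ⟨t, ht⟩ := hθ2.2 (g : G ⧸ N)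
    simp only at ht
    have hA : (((List.ofFn (fun k => s (θ t k))).prod : G) : G ⧸ N) = g := by
      rw [← ht]
      have h1 := map_list_prod (QuotientGroup.mk' N) (List.ofFn (fun k => s (θ t k)))
      rw [List.map_ofFn] at h1
      refine h1.trans ?_
      congr 2
      funext k
      exact hs _
    have hmem : ((List.ofFn (fun k => s (θ t k))).prod)⁻¹ * g ∈ N := QuotientGroup.eq.1 hA
    obtain ⟨q, hq⟩ := hT2.2 (j, ⟨_, hmem⟩)
    simp only [Prod.mk.injEq] at hq
    refine ⟨(t, q), ?_⟩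
    simp only [hq.1, hq.2, mul_inv_cancel_left]
  · rintro ⟨t, q⟩
    refine Prod.ext rfl ?_
    exact hc t (fun k => (T q k).2)

theorem alt_prod {Q : Type} [Group Q] : ∀ (D : ℕ) (t : Q),
    (List.ofFn (fun k : Fin D => if Even (k : ℕ) then t else t⁻¹)).prod
      = if Odd D then t else 1 := by
  intro D
  induction D with
  | zero => intro t; simp
  | succ D ih =>
    intro t
    rw [List.ofFn_succ, List.prod_cons]
    have h1 : (fun k : Fin D => if Even ((k.succ : Fin (D + 1)) : ℕ) then t else t⁻¹)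
        = fun k : Fin D => if Even (k : ℕ) then t⁻¹ else t⁻¹⁻¹ := by
      funext k
      by_cases h : Even (k : ℕ)
      · have h' : ¬ Even ((k : ℕ) + 1) := by rw [Nat.even_add_one]; exact not_not.2 h
        rw [Fin.val_succ, if_neg h', if_pos h]
      · have h' : Even ((k : ℕ) + 1) := by rw [Nat.even_add_one]; exact h
        rw [Fin.val_succ, if_pos h', if_neg h, inv_inv]
    rw [h1, ih t⁻¹]
    by_cases h : Odd D
    · have h' : ¬ Odd (D + 1) := by rw [Nat.odd_add_one]; exact not_not.2 h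
      rw [if_pos h, if_neg h']
      simp
    · have h' : Odd (D + 1) := by rw [Nat.odd_add_one]; exact h
      rw [if_neg h, if_pos h']
      simp

theorem alt_bij {Q : Type} [Group Q] (k : ℕ) :
    Function.Bijective (fun t : Q => if Even k then t else t⁻¹) := by
  by_cases h : Even k
  · simp only [if_pos h]; exact Function.bijective_id
  · simp only [if_neg h]; exact (Equiv.inv Q).bijective

theorem complete_H {d : ℕ} (hd : 2 ≤ d) {Q : Type} [Group Q]
    (h : Odd d ∨ TH964.HP.HasTransversal (fun x y : Q => x * y)) :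
    HasTransversalH (fun x : Fin d → Q => (List.ofFn x).prod) := by
  by_cases ho : Odd d
  · refine ⟨fun t k => if Even (k : ℕ) then t else t⁻¹, fun k => alt_bij _, ?_⟩
    have : (fun t : Q => (fun x : Fin d → Q => (List.ofFn x).prod)
        ((fun t (k : Fin d) => if Even (k : ℕ) then t else t⁻¹) t)) = id := by
      funext t
      simp only [id]
      rw [alt_prod d t, if_pos ho]
    rw [this]
    exact Function.bijective_id
  · obtain ⟨σ, hσ⟩ := h.resolve_left ho
    obtain ⟨D, rfl⟩ : ∃ D, d = D + 2 := ⟨d - 2, by omega⟩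
    have hD : ¬ Odd D := by
      intro h
      exact ho (by
        rw [Nat.odd_add_one, Nat.odd_add_one]
        exact not_not.2 h)
    refine ⟨fun t => Fin.cons t (Fin.cons (σ t) (fun k : Fin D => if Even (k : ℕ) then t else t⁻¹)),
      fun k => ?_, ?_⟩
    · refine Fin.cases ?_ (fun k => ?_) k
      · exact Function.bijective_id
      · refine Fin.cases ?_ (fun k => ?_) k
        · exact σ.bijective
        · exact alt_bij _
    · have : (fun t : Q => (fun x : Fin (D + 2) → Q => (List.ofFn x).prod)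
          ((fun t => Fin.cons t (Fin.cons (σ t) (fun k : Fin D => if Even (k : ℕ) then t else t⁻¹)) :
            Q → Fin (D + 2) → Q) t)) = fun t => t * σ t := by
        funext t
        simp only [List.ofFn_succ, List.prod_cons, Fin.cons_zero, Fin.cons_succ]
        have h1 := alt_prod D t
        rw [if_neg hD] at h1
        rw [h1, mul_one]
      rw [this]
      exact hσ

theorem field_caseH (d n : ℕ) (hdn : Odd (d + 2) ∨ Odd n) : ∃ e₀ : ℕ,
    ∀ L : (Fin (d + 2) → Fin n) → Fin n, IsHyper L → ∀ e ≥ e₀, ∀ (F : Type) [Field F] [Finite F],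
      e ∣ Nat.card F - 1 → 64 * e ^ 6 < Nat.card F →
      HasTransversalH (fun x : Fin (d + 2) → Fin n × F => (L (fun k => (x k).1),
        ∑ k, (x k).2)) := by
  classical
  rcases Nat.eq_zero_or_pos n with h0 | h0
  · subst h0
    refine ⟨0, fun L _ e _ F _ _ _ _ => ⟨fun r => r.1.elim0, fun j => ?_, ?_⟩⟩
    · exact ⟨fun r => r.1.elim0, fun r => r.1.elim0⟩
    · exact ⟨fun r => r.1.elim0, fun r => r.1.elim0⟩
  · have h : ∀ L : (Fin (d + 2) → Fin n) → Fin n, ∃ m : ℕ, IsHyper L → ∀ e ≥ m,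
        ∀ (F : Type) [Field F] [Fintype F], e ∣ Fintype.card F - 1 →
        64 * e ^ 6 < Fintype.card F →
        HasTransversalH (fun x : Fin (d + 2) → Fin n × F => (L (fun k => (x k).1),
          ∑ k, (x k).2)) := by
      intro L
      by_cases hL : IsHyper L
      · obtain ⟨w, hw⟩ := exists_weights (cls L)
          (fun T _ a ha => no_obstruction (by omega) h0 hdn L hL T a ha)
        obtain ⟨m, hm⟩ := transversalH h0 L hL w hw
        exact ⟨m, fun _ => hm⟩
      · exact ⟨0, fun h1 => absurd h1 hL⟩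
    choose m hm using h
    refine ⟨univ.sup m, fun L hL e he F _ _ h1 h2 => ?_⟩
    have := Fintype.ofFinite F
    rw [Nat.card_eq_fintype_card] at h1 h2
    exact hm L hL e (le_trans (Finset.le_sup (f := m) (mem_univ L)) he) F h1 h2

theorem group_caseH {d n : ℕ} (hd : 2 ≤ d) (L : (Fin d → Fin n) → Fin n) {F : Type} [Field F]
    {G : Type} [Group G] [Finite G] (N : Subgroup G) [N.Normal]
    (hN : Odd d ∨ TH964.HP.HasTransversal (fun x y : G ⧸ N => x * y))
    (φ : N ≃* Multiplicative F)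
    (h : HasTransversalH (fun x : Fin d → Fin n × F => (L (fun k => (x k).1),
        ∑ k, (x k).2))) :
    HasTransversalH (fun x : Fin d → Fin n × G => (L (fun k => (x k).1),
      (List.ofFn (fun k => (x k).2)).prod)) := by
  refine ext_transversalH (by omega) L N (complete_H hd hN) ?_
  let ψ : N ≃ F := φ.toEquiv.trans Multiplicative.toAdd
  refine hasTransversalH_iso _ _ ((Equiv.refl (Fin n)).prodCongr ψ)
    ((Equiv.refl (Fin n)).prodCongr ψ) ?_ h
  intro x
  refine Prod.ext rfl ?_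
  show Multiplicative.toAdd (φ ((List.ofFn (fun k => (x k).2)).prod))
    = ∑ k, Multiplicative.toAdd (φ (x k).2)
  rw [map_list_prod, List.map_ofFn, List.prod_ofFn, toAdd_prod]
  rfl

theorem nilpotent_caseH {d n : ℕ} (hd : 2 ≤ d) (L : (Fin d → Fin n) → Fin n) (e₀ : ℕ)
    (he₀ : ∀ e ≥ e₀, ∀ (F : Type) [Field F] [Finite F], e ∣ Nat.card F - 1 →
      64 * e ^ 6 < Nat.card F →
      HasTransversalH (fun x : Fin d → Fin n × F => (L (fun k => (x k).1), ∑ k, (x k).2)))
    (G : Type) [Group G] [Finite G] [Group.IsNilpotent G] (p e : ℕ)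
    (hG : Odd d ∨ Odd (Nat.card G))
    (hp : p.Prime) (hpG : p ∣ Nat.card G) (he : e₀ ≤ e) (h1 : e ∣ p - 1) (h2 : 64 * e ^ 6 < p) :
    HasTransversalH (fun x : Fin d → Fin n × G => (L (fun k => (x k).1),
      (List.ofFn (fun k => (x k).2)).prod)) := by
  have : Fact p.Prime := ⟨hp⟩
  obtain ⟨x, hxc, hx⟩ := TH964.FP.exists_central p hp G inferInstance hpG
  have hcN : Nat.card (Subgroup.zpowers x) = p := by rw [Nat.card_zpowers, hx]
  have hcF : Nat.card (ZMod p) = p := Nat.card_zmod p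
  have φ : Subgroup.zpowers x ≃* Multiplicative (ZMod p) :=
    mulEquivOfCyclicCardEq (by rw [hcN]; exact hcF.symm)
  have hN : (Subgroup.zpowers x).Normal := by
    refine ⟨fun y hy g => ?_⟩
    have hyc : y ∈ Subgroup.center G := (Subgroup.zpowers_le.2 hxc) hy
    have := Subgroup.mem_center_iff.1 hyc g
    rwa [this, mul_inv_cancel_right]
  refine group_caseH hd L (Subgroup.zpowers x) (hG.imp id (fun hG => ?_)) φ
    (he₀ e he (ZMod p) (by rw [hcF]; exact h1) (by rw [hcF]; exact h2))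
  refine TH964.FP.odd_complete ?_
  exact Nat.Odd.of_mul_left (n := Nat.card (Subgroup.zpowers x)) (by
    show Odd ((Subgroup.zpowers x).index * Nat.card (Subgroup.zpowers x))
    rw [Subgroup.index_mul_card]; exact hG)

theorem almost_allH (d n : ℕ) (hd : 2 ≤ d) (hdn : Odd d ∨ Odd n)
    (ε : ℝ) (hε : 0 < ε) : ∃ X₀ : ℕ, ∀ X ≥ X₀,
      ({m : ℕ | m < X ∧ (Odd d ∨ Odd m) ∧ ∃ (G : Type) (_ : Group G) (_ : Finite G)
        (L : (Fin d → Fin n) → Fin n), Group.IsNilpotent G ∧ Nat.card G = m ∧ IsHyper L ∧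
        ¬ HasTransversalH (fun x : Fin d → Fin n × G => (L (fun k => (x k).1),
          (List.ofFn (fun k => (x k).2)).prod))}.ncard : ℝ) ≤ ε * X := by
  classical
  obtain ⟨D, rfl⟩ : ∃ D, d = D + 2 := ⟨d - 2, by omega⟩
  obtain ⟨e₀, he₀⟩ := field_caseH D n hdn
  obtain ⟨S, hS, hK⟩ := TH964.FP.exists_set (e₀ + 1) (64 * (e₀ + 1) ^ 6) (- Real.log (ε / 2))
  obtain ⟨M, hM⟩ : ∃ M : ℕ, M = ∏ p ∈ S, p := ⟨_, rfl⟩
  obtain ⟨X₀, hX₀⟩ := exists_nat_ge (2 * (M : ℝ) / ε)
  refine ⟨X₀, fun X hX => ?_⟩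
  have hsub : {m : ℕ | m < X ∧ (Odd (D + 2) ∨ Odd m) ∧ ∃ (G : Type) (_ : Group G) (_ : Finite G)
        (L : (Fin (D + 2) → Fin n) → Fin n), Group.IsNilpotent G ∧ Nat.card G = m ∧ IsHyper L ∧
        ¬ HasTransversalH (fun x : Fin (D + 2) → Fin n × G => (L (fun k => (x k).1),
          (List.ofFn (fun k => (x k).2)).prod))}
        ⊆ ((range X).filter (fun m => ∀ p ∈ S, ¬ p ∣ m) : Finset ℕ) := by
    rintro m ⟨hmX, hodd, G, _, _, L, hnil, hcard, hL, hnot⟩
    rw [Finset.coe_filter]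
    refine ⟨mem_range.2 hmX, fun p hp hpm => hnot ?_⟩
    obtain ⟨hpp, hpB, hpq⟩ := hS p hp
    rw [← hcard] at hpm hodd
    exact nilpotent_caseH hd L e₀ (he₀ L hL) G p (e₀ + 1) hodd hpp hpm (Nat.le_succ _) hpq hpB
  have h1 := Set.ncard_le_ncard hsub (Finset.finite_toSet _)
  rw [Set.ncard_coe_finset] at h1
  have h2 := TH964.FP.sieve S (fun p hp => (hS p hp).1) X
  rw [← hM] at h2
  have h3 : Real.exp (- ∑ p ∈ S, (p : ℝ)⁻¹) ≤ ε / 2 := by
    rw [← Real.exp_log (show (0 : ℝ) < ε / 2 by positivity)]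
    exact Real.exp_le_exp.2 (by linarith)
  have h4 : (M : ℝ) ≤ ε / 2 * X := by
    have h5 : 2 * (M : ℝ) / ε ≤ X := hX₀.trans (by exact_mod_cast hX)
    rw [div_le_iff₀ hε] at h5
    linarith
  have h6 : (X : ℝ) * Real.exp (- ∑ p ∈ S, (p : ℝ)⁻¹) ≤ X * (ε / 2) :=
    mul_le_mul_of_nonneg_left h3 (by positivity)
  have h7 : ((_ : ℕ) : ℝ) ≤ _ := Nat.cast_le.2 h1
  refine h7.trans (h2.trans ?_)
  linarith

theorem mainH (d n : ℕ) (hd : 2 ≤ d) (hdn : Odd d ∨ Odd n) :
    (∀ ε : ℝ, 0 < ε → ∃ X₀ : ℕ, ∀ X ≥ X₀,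
      ({m : ℕ | m < X ∧ (Odd d ∨ Odd m) ∧ ∃ (G : Type) (_ : Group G) (_ : Finite G)
        (L : (Fin d → Fin n) → Fin n), Group.IsNilpotent G ∧ Nat.card G = m ∧ IsHyper L ∧
        ¬ HasTransversalH (fun x : Fin d → Fin n × G => (L (fun k => (x k).1),
          (List.ofFn (fun k => (x k).2)).prod))}.ncard : ℝ) ≤ ε * X) ∧
    ∃ e₀ : ℕ, ∀ L : (Fin d → Fin n) → Fin n, IsHyper L →
      ∀ (F G : Type) [Field F] [Finite F] [Group G] [Finite G] (N : Subgroup G) [N.Normal] (e : ℕ),
        Nonempty (N ≃* Multiplicative F) → e₀ ≤ e → e ∣ Nat.card F - 1 →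
        64 * e ^ 6 < Nat.card F →
        (Odd d ∨ TH964.HP.HasTransversal (fun x y : G ⧸ N => x * y)) →
        HasTransversalH (fun x : Fin d → Fin n × G => (L (fun k => (x k).1),
          (List.ofFn (fun k => (x k).2)).prod)) := by
  refine ⟨almost_allH d n hd hdn, ?_⟩
  obtain ⟨D, rfl⟩ : ∃ D, d = D + 2 := ⟨d - 2, by omega⟩
  obtain ⟨e₀, he₀⟩ := field_caseH D n hdn
  refine ⟨e₀, fun L hL F G _ _ _ _ N _ e hφ he h1 h2 hN => ?_⟩
  obtain ⟨φ⟩ := hφ
  exact group_caseH hd L N hN φ (he₀ L hL e he F h1 h2)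

end TH964.HC
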