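import Pool.Agent.TH964.HC.Wt
import Pool.Agent.TH964.HP.Konig
import Pool.Agent.TH964.FP.Enum

set_option autoImplicit false

/-! Odd dimension: pairing the coordinates. -/

namespace TH964.HC

open Finset

/-- Colourings of a multigraph which is regular on both sides. -/
theorem color {I R C A : Type} [Fintype I] [Fintype R] [Fintype C] [Fintype A] [DecidableEq R]
    [DecidableEq C] (hcard : Fintype.card R = Fintype.card C) (f : I → R) (g : I → C)
    (hf : ∀ r, (univ.filter (fun ι => f ι = r)).card = Fintype.card A)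
    (hg : ∀ c, (univ.filter (fun ι => g ι = c)).card = Fintype.card A) :
    ∃ col : I → A, Function.Injective (fun ι => (f ι, col ι)) ∧
      Function.Injective (fun ι => (g ι, col ι)) := by
  classical
  obtain ⟨σ, hσ⟩ := TH964.HP.konig' (A := A) hcard
    (fun r c => (univ.filter (fun ι => f ι = r ∧ g ι = c)).card) (by
      intro r
      rw [← hf r, Finset.card_eq_sum_card_fiberwise (f := g) (t := univ) (by intro x _; simp)]
      refine Finset.sum_congr rfl (fun c _ => ?_)
      rw [Finset.filter_filter]) (by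
      intro c
      rw [← hg c, Finset.card_eq_sum_card_fiberwise (f := f) (t := univ) (by intro x _; simp)]
      refine Finset.sum_congr rfl (fun r _ => ?_)
      rw [Finset.filter_filter]
      congr 1
      ext ι
      simp [and_comm])
  have hE : ∀ r c, Nonempty ({ι // f ι = r ∧ g ι = c} ≃ {a // σ a r = c}) := by
    intro r c
    refine Fintype.card_eq.1 ?_
    rw [Fintype.card_subtype, Fintype.card_subtype]
    exact (hσ r c).symm
  let E : ∀ r c, {ι // f ι = r ∧ g ι = c} ≃ {a // σ a r = c} := fun r c => (hE r c).some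
  let col : I → A := fun ι => (E (f ι) (g ι) ⟨ι, rfl, rfl⟩).1
  have hcol : ∀ ι, σ (col ι) (f ι) = g ι := fun ι => (E (f ι) (g ι) ⟨ι, rfl, rfl⟩).2
  have hc : ∀ r c ι (h1 : f ι = r) (h2 : g ι = c), col ι = (E r c ⟨ι, h1, h2⟩).1 := by
    rintro r c ι rfl rfl; rfl
  have key : ∀ ι ι', f ι = f ι' → g ι = g ι' → col ι = col ι' → ι = ι' := by
    intro ι ι' h1 h2 h3
    rw [hc (f ι') (g ι') ι h1 h2, hc (f ι') (g ι') ι' rfl rfl] at h3
    exact congrArg Subtype.val ((E (f ι') (g ι')).injective (Subtype.ext h3))
  refine ⟨col, ?_, ?_⟩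
  · intro ι ι' h
    simp only [Prod.mk.injEq] at h
    refine key ι ι' h.1 ?_ h.2
    rw [← hcol ι, ← hcol ι', h.1, h.2]
  · intro ι ι' h
    simp only [Prod.mk.injEq] at h
    refine key ι ι' ?_ h.1 h.2
    apply (σ (col ι)).injective
    rw [hcol ι, h.2, hcol ι', h.1]

/-- The members of the family `H` collapse when their coordinates are paired by suitable
bijections. -/
def Paired {d : ℕ} {C S : Type} (H : C → (Fin d → S) → S) : Prop :=
  ∃ (τ : Fin d → Equiv.Perm S) (ω : Equiv.Perm S),
    ∀ (c : C) (f : ℕ → S), H c (fun k => τ k (f ((k : ℕ) / 2))) = ω (f (d / 2))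

theorem pair_transversal {d n : ℕ} (hd : 0 < d) (hdo : Odd d) (L : (Fin d → Fin n) → Fin n)
    (S : Type) [Finite S] (W : (Fin d → Fin n) → ℕ)
    (hW : ∀ κ i, (∑ x, if cls L κ x = i then W x else 0) = Nat.card S)
    (H : (Fin d → Fin n) → (Fin d → S) → S) (hH : Paired H) :
    HasTransversalH (fun x : Fin d → Fin n × S => (L (fun k => (x k).1),
      H (fun k => (x k).1) (fun k => (x k).2))) := by
  classical
  have := Fintype.ofFinite S
  obtain ⟨τ, ω, hτ⟩ := hH
  let I := Σ c, Fin (W c)
  have hfib : ∀ κ i, (univ.filter (fun ι : I => cls L κ ι.1 = i)).card = Fintype.card S := by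
    intro κ i
    rw [← Fintype.card_subtype, ← Nat.card_eq_fintype_card (α := S), ← hW κ i]
    exact TH964.FP.card_sigma_fibre W (cls L κ) i
  let κ : ℕ → Option (Fin d) := fun t => if h : 2 * t < d then some ⟨2 * t, h⟩ else none
  let κ' : ℕ → Option (Fin d) := fun t => if h : 2 * t + 1 < d then some ⟨2 * t + 1, h⟩ else none
  have hcol : ∀ t : ℕ, ∃ col : I → S, Function.Injective (fun ι : I => (cls L (κ t) ι.1, col ι)) ∧
      Function.Injective (fun ι : I => (cls L (κ' t) ι.1, col ι)) :=
    fun t => color rfl _ _ (hfib (κ t)) (hfib (κ' t))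
  choose col hcol1 hcol2 using hcol
  have hcardI : Fintype.card I = n * Fintype.card S := by
    rw [← Fintype.card_congr (Equiv.sigmaFiberEquiv (fun ι : I => cls L none ι.1)),
      Fintype.card_sigma]
    have : ∀ i : Fin n, Fintype.card {ι : I // cls L none ι.1 = i} = Fintype.card S := by
      intro i
      rw [Fintype.card_subtype]
      exact hfib none i
    simp [this]
  have hle : Nat.card (Fin n × S) ≤ Nat.card I := by
    rw [Nat.card_prod, Nat.card_eq_fintype_card (α := I), hcardI,
      Nat.card_eq_fintype_card (α := Fin n), Nat.card_eq_fintype_card (α := S), Fintype.card_fin]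
  let r : Fin d → I → Fin n × S := fun k ι => (ι.1 k, τ k (col ((k : ℕ) / 2) ι))
  let s : I → Fin n × S := fun ι => (L ι.1, ω (col (d / 2) ι))
  have hr : ∀ k, Function.Injective (r k) := by
    intro k ι ι' h
    simp only [r, Prod.mk.injEq] at h
    obtain ⟨h1, h2⟩ := h
    have h3 := (τ k).injective h2
    rcases Nat.even_or_odd (k : ℕ) with he | ho
    · have hk : κ ((k : ℕ) / 2) = some k := by
        have e1 : 2 * ((k : ℕ) / 2) = k := Nat.two_mul_div_two_of_even he
        simp only [κ, e1, k.isLt, dif_pos]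
      refine hcol1 ((k : ℕ) / 2) (Prod.ext ?_ h3)
      show cls L (κ ((k : ℕ) / 2)) ι.1 = cls L (κ ((k : ℕ) / 2)) ι'.1
      rw [hk]
      exact h1
    · have hk : κ' ((k : ℕ) / 2) = some k := by
        have e1 : 2 * ((k : ℕ) / 2) + 1 = k := Nat.two_mul_div_two_add_one_of_odd ho
        simp only [κ', e1, k.isLt, dif_pos]
      refine hcol2 ((k : ℕ) / 2) (Prod.ext ?_ h3)
      show cls L (κ' ((k : ℕ) / 2)) ι.1 = cls L (κ' ((k : ℕ) / 2)) ι'.1
      rw [hk]
      exact h1
  have hs : Function.Injective s := by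
    intro ι ι' h
    simp only [s, Prod.mk.injEq] at h
    obtain ⟨h1, h2⟩ := h
    have h3 := ω.injective h2
    have hk : κ' (d / 2) = none := by
      have e1 : 2 * (d / 2) + 1 = d := Nat.two_mul_div_two_add_one_of_odd hdo
      simp only [κ', e1, lt_irrefl, dif_neg, not_false_eq_true]
    refine hcol2 (d / 2) (Prod.ext ?_ h3)
    show cls L (κ' (d / 2)) ι.1 = cls L (κ' (d / 2)) ι'.1
    rw [hk]
    exact h1
  have hrb : ∀ k, Function.Bijective (r k) := fun k => (hr k).bijective_of_nat_card_le hle
  have hsb : Function.Bijective s := hs.bijective_of_nat_card_le hle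
  let e := Equiv.ofBijective _ (hrb ⟨0, hd⟩)
  refine ⟨fun i k => r k (e.symm i), fun k => (hrb k).comp e.symm.bijective, ?_⟩
  have : (fun i => (fun x : Fin d → Fin n × S => (L (fun k => (x k).1),
      H (fun k => (x k).1) (fun k => (x k).2))) ((fun i k => r k (e.symm i)) i)) = s ∘ e.symm := by
    funext i
    obtain ⟨ι, hι⟩ : ∃ ι, ι = e.symm i := ⟨_, rfl⟩
    simp only [Function.comp_apply, ← hι]
    exact Prod.ext rfl (hτ ι.1 (fun t => col t ι))
  rw [this]
  exact hsb.comp e.symm.bijective

theorem pair_main (d n : ℕ) (hd : 2 ≤ d) (hdo : Odd d) : ∃ m₀ : ℕ,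
    ∀ L : (Fin d → Fin n) → Fin n, IsHyper L →
      ∀ (S : Type) [Finite S] (H : (Fin d → Fin n) → (Fin d → S) → S), Paired H →
        m₀ ≤ Nat.card S →
        HasTransversalH (fun x : Fin d → Fin n × S => (L (fun k => (x k).1),
          H (fun k => (x k).1) (fun k => (x k).2))) := by
  classical
  rcases Nat.eq_zero_or_pos n with h0 | h0
  · subst h0
    refine ⟨0, fun L _ S _ H _ _ => ⟨fun r => r.1.elim0, fun j => ?_, ?_⟩⟩
    · exact ⟨fun r => r.1.elim0, fun r => r.1.elim0⟩
    · exact ⟨fun r => r.1.elim0, fun r => r.1.elim0⟩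
  have h : ∀ L : (Fin d → Fin n) → Fin n, ∃ m : ℕ, IsHyper L → ∀ e ≥ m,
      ∃ W : (Fin d → Fin n) → ℕ, ∀ κ i, (∑ x, if cls L κ x = i then W x else 0) = e := by
    intro L
    by_cases hL : IsHyper L
    · obtain ⟨w, hw⟩ := exists_weights (cls L)
        (fun T _ a ha => no_obstruction hd h0 (Or.inl hdo) L hL T a ha)
      obtain ⟨m, hm⟩ := big_weights hd h0 L hL w hw
      exact ⟨m, fun _ => hm⟩
    · exact ⟨0, fun h => absurd h hL⟩
  choose m hm using h
  refine ⟨univ.sup m, fun L hL S _ H hH hS => ?_⟩
  obtain ⟨W, hW⟩ := hm L hL _ (le_trans (Finset.le_sup (f := m) (mem_univ L)) hS)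
  exact pair_transversal (by omega) hdo L S W hW H hH

/-- The iterated composition of binary operations: `comp A 0 x = x 0`,
`comp A (k + 1) x = A k (comp A k (x 0, …, x k)) (x (k + 1))`. -/
def comp {S : Type} (A : ℕ → S → S → S) : (k : ℕ) → (Fin (k + 1) → S) → S
  | 0, x => x 0
  | k + 1, x => A k (comp A k (fun i => x i.castSucc)) (x (Fin.last (k + 1)))

theorem comp_paired {S : Type} [Finite S] (A : ℕ → S → S → S) (hA : ∀ k, TH964.HP.IsLatin (A k))
    (q : S) : ∀ e : ℕ, ∃ (τ : ℕ → Equiv.Perm S) (ω : Equiv.Perm S), ∀ f : ℕ → S,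
      comp A (2 * e) (fun k => τ (k : ℕ) (f ((k : ℕ) / 2))) = ω (f e) := by
  classical
  intro e
  induction e with
  | zero => exact ⟨fun _ => Equiv.refl S, Equiv.refl S, fun f => rfl⟩
  | succ e ih =>
    obtain ⟨τ, ω, h⟩ := ih
    -- the partner of `2 e`
    have hex : ∀ y, ∃ z, A (2 * e) (ω y) z = q := fun y => ((hA (2 * e)).1 (ω y)).2 q
    choose g hg using hex
    have hgi : Function.Injective g := by
      intro y y' hy
      have h1 := hg y
      rw [hy] at h1
      exact ω.injective (((hA (2 * e)).2 (g y')).1 (h1.trans (hg y').symm))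
    let γ : Equiv.Perm S := Equiv.ofBijective g (Finite.injective_iff_bijective.1 hgi)
    let ω' : Equiv.Perm S := Equiv.ofBijective _ ((hA (2 * e + 1)).1 q)
    refine ⟨fun k => if k ≤ 2 * e then τ k else if k = 2 * e + 1 then γ else Equiv.refl S, ω',
      fun f => ?_⟩
    show A (2 * e + 1) (A (2 * e) (comp A (2 * e) _) _) _ = A (2 * e + 1) q (f (e + 1))
    have e1 : (fun i : Fin (2 * e + 1) =>
        (if ((i.castSucc.castSucc : Fin (2 * e + 1 + 1 + 1)) : ℕ) ≤ 2 * e then
          τ ((i.castSucc.castSucc : Fin (2 * e + 1 + 1 + 1)) : ℕ)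
          else if ((i.castSucc.castSucc : Fin (2 * e + 1 + 1 + 1)) : ℕ) = 2 * e + 1 then γ
          else Equiv.refl S) (f (((i.castSucc.castSucc : Fin (2 * e + 1 + 1 + 1)) : ℕ) / 2)))
        = fun i : Fin (2 * e + 1) => τ (i : ℕ) (f ((i : ℕ) / 2)) := by
      funext i
      have hi : (i : ℕ) ≤ 2 * e := by omega
      simp only [Fin.val_castSucc, if_pos hi]
    have e2 : (if (((Fin.last (2 * e + 1)).castSucc : Fin (2 * e + 1 + 1 + 1)) : ℕ) ≤ 2 * e then
          τ (((Fin.last (2 * e + 1)).castSucc : Fin (2 * e + 1 + 1 + 1)) : ℕ)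
          else if (((Fin.last (2 * e + 1)).castSucc : Fin (2 * e + 1 + 1 + 1)) : ℕ) = 2 * e + 1
          then γ else Equiv.refl S)
          (f ((((Fin.last (2 * e + 1)).castSucc : Fin (2 * e + 1 + 1 + 1)) : ℕ) / 2)) = g (f e) := by
      have h1 : (((Fin.last (2 * e + 1)).castSucc : Fin (2 * e + 1 + 1 + 1)) : ℕ) = 2 * e + 1 := by
        simp
      have h2 : (2 * e + 1) / 2 = e := by omega
      rw [h1, h2, if_neg (by omega), if_pos rfl]
      rfl
    have e3 : (if ((Fin.last (2 * e + 1 + 1) : Fin (2 * e + 1 + 1 + 1)) : ℕ) ≤ 2 * e then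
          τ ((Fin.last (2 * e + 1 + 1) : Fin (2 * e + 1 + 1 + 1)) : ℕ)
          else if ((Fin.last (2 * e + 1 + 1) : Fin (2 * e + 1 + 1 + 1)) : ℕ) = 2 * e + 1
          then γ else Equiv.refl S)
          (f (((Fin.last (2 * e + 1 + 1) : Fin (2 * e + 1 + 1 + 1)) : ℕ) / 2)) = f (e + 1) := by
      have h1 : ((Fin.last (2 * e + 1 + 1) : Fin (2 * e + 1 + 1 + 1)) : ℕ) = 2 * e + 2 := by
        simp
      have h2 : (2 * e + 2) / 2 = e + 1 := by omega
      rw [h1, h2, if_neg (by omega), if_neg (by omega)]
      rfl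
    refine congrArg₂ (A (2 * e + 1)) ?_ e3
    refine Eq.trans (congrArg₂ (A (2 * e)) ((congrArg (comp A (2 * e)) e1).trans (h f)) e2) ?_
    exact hg (f e)

theorem comp_paired' {S C : Type} [Finite S] (A : ℕ → S → S → S)
    (hA : ∀ k, TH964.HP.IsLatin (A k)) (e : ℕ) :
    Paired (fun (_ : C) (x : Fin (2 * e + 1) → S) => comp A (2 * e) x) := by
  rcases isEmpty_or_nonempty S with hS | ⟨⟨q⟩⟩
  · exact ⟨fun _ => Equiv.refl S, Equiv.refl S, fun _ f => (hS.false (f 0)).elim⟩
  · obtain ⟨τ, ω, h⟩ := comp_paired A hA q e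
    refine ⟨fun k => τ k, ω, fun _ f => ?_⟩
    have : (2 * e + 1) / 2 = e := by omega
    rw [this]
    exact h f

/-- Odd dimension: products with iterated compositions of Latin squares. -/
theorem comp_main (e n : ℕ) (he : 1 ≤ e) : ∃ m₀ : ℕ,
    ∀ L : (Fin (2 * e + 1) → Fin n) → Fin n, IsHyper L →
      ∀ (S : Type) [Finite S] (A : ℕ → S → S → S), (∀ k, TH964.HP.IsLatin (A k)) →
        m₀ ≤ Nat.card S →
        HasTransversalH (fun x : Fin (2 * e + 1) → Fin n × S => (L (fun k => (x k).1),
          comp A (2 * e) (fun k => (x k).2))) := by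
  obtain ⟨m₀, h⟩ := pair_main (2 * e + 1) n (by omega) ⟨e, rfl⟩
  exact ⟨m₀, fun L hL S _ A hA hS => h L hL S (fun _ x => comp A (2 * e) x)
    (comp_paired' A hA e) hS⟩

/-- Ordered products in groups as compositions. -/
theorem comp_mul {G : Type} [Group G] : ∀ (k : ℕ) (x : Fin (k + 1) → G),
    comp (fun _ x y => x * y) k x = (List.ofFn x).prod := by
  intro k
  induction k with
  | zero => intro x; simp [comp]
  | succ k ih =>
    intro x
    rw [comp, ih]
    conv_rhs => rw [List.ofFn_succ', List.prod_concat]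

/-- The compositions are Latin hypercubes. -/
theorem comp_isHyper {S : Type} (A : ℕ → S → S → S)
    (hA : ∀ k, TH964.HP.IsLatin (A k)) : ∀ k : ℕ, IsHyper (comp A k) := by
  intro k
  induction k with
  | zero =>
    intro x j
    have : j = 0 := Fin.fin_one_eq_zero j
    subst this
    have h : (fun a => comp A 0 (Function.update x 0 a)) = id := by
      funext a; simp [comp]
    rw [h]
    exact Function.bijective_id
  | succ k ih =>
    intro x j
    refine Fin.lastCases ?_ (fun j => ?_) j
    · have h : (fun a => comp A (k + 1) (Function.update x (Fin.last (k + 1)) a))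
          = fun a => A k (comp A k (fun i => x i.castSucc)) a := by
        funext a
        have h1 : (fun i : Fin (k + 1) => Function.update x (Fin.last (k + 1)) a i.castSucc)
            = fun i => x i.castSucc := by
          funext i
          rw [Function.update_of_ne (Fin.castSucc_lt_last i).ne]
        rw [comp, h1, Function.update_self]
      rw [h]
      exact (hA k).1 _
    · have h : (fun a => comp A (k + 1) (Function.update x j.castSucc a))
          = (fun b => A k b (x (Fin.last (k + 1)))) ∘
            fun a => comp A k (Function.update (fun i => x i.castSucc) j a) := by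
        funext a
        have h1 : (fun i : Fin (k + 1) => Function.update x j.castSucc a i.castSucc)
            = Function.update (fun i => x i.castSucc) j a := by
          funext i
          by_cases hi : i = j
          · subst hi; rw [Function.update_self, Function.update_self]
          · rw [Function.update_of_ne hi, Function.update_of_ne
              (fun h' => hi (Fin.castSucc_injective _ h'))]
        simp only [Function.comp_apply]
        rw [comp, h1, Function.update_of_ne (Fin.castSucc_lt_last j).ne']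
      rw [h]
      exact ((hA k).2 _).comp (ih _ j)

theorem isHyper_mul {d n : ℕ} {S : Type} (L : (Fin d → Fin n) → Fin n) (hL : IsHyper L)
    (H : (Fin d → S) → S) (hH : IsHyper H) :
    IsHyper (fun x : Fin d → Fin n × S => (L (fun k => (x k).1), H (fun k => (x k).2))) := by
  classical
  intro x j
  have hfst : ∀ r : Fin n × S, (fun k => (Function.update x j r k).1)
      = Function.update (fun k => (x k).1) j r.1 := by
    intro r
    funext k
    by_cases hk : k = j
    · subst hk; simp
    · simp [hk]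
  have hsnd : ∀ r : Fin n × S, (fun k => (Function.update x j r k).2)
      = Function.update (fun k => (x k).2) j r.2 := by
    intro r
    funext k
    by_cases hk : k = j
    · subst hk; simp
    · simp [hk]
  have : (fun r => (fun x : Fin d → Fin n × S => (L (fun k => (x k).1), H (fun k => (x k).2)))
      (Function.update x j r)) = Prod.map
        (fun a => L (Function.update (fun k => (x k).1) j a))
        (fun a => H (Function.update (fun k => (x k).2) j a)) := by
    funext r
    simp only [hfst, hsnd]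
    rfl
  rw [this]
  exact Function.Bijective.prodMap (hL _ j) (hH _ j)

end TH964.HC
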