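import Pool.Agent.TH964.HC.Fn
import Pool.Agent.TH964.HC.Elem

set_option autoImplicit false

/-! Products of Latin hypercubes with solvable groups. -/

namespace TH964.HC

open Finset

/-- From a quotient to the group. -/
theorem ext2H {d n : ℕ} (hd : 2 ≤ d) (L : (Fin d → Fin n) → Fin n) {G : Type}
    [Group G] [Finite G] (N : Subgroup G) [hNn : N.Normal]
    (hN : Odd d ∨ TH964.HP.HasTransversal (fun x y : N => x * y))
    (h : HasTransversalH (fun x : Fin d → Fin n × (G ⧸ N) => (L (fun k => (x k).1),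
      (List.ofFn (fun k => (x k).2)).prod))) :
    HasTransversalH (fun x : Fin d → Fin n × G => (L (fun k => (x k).1),
      (List.ofFn (fun k => (x k).2)).prod)) := by
  classical
  obtain ⟨θ, hθ1, hθ2⟩ := complete_H hd hN
  obtain ⟨T, hT1, hT2⟩ := h
  let s : G ⧸ N → G := Quotient.out
  have hs : ∀ t : G ⧸ N, ((s t : G) : G ⧸ N) = t := fun t => QuotientGroup.out_eq' t
  have hcm := fun q => conj_maps N d (fun k => s (T q k).2)
  choose c hc using hcm
  have hcard : Nat.card ((Fin n × (G ⧸ N)) × N) ≤ Nat.card (Fin n × G) := by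
    rw [Nat.card_prod, Nat.card_prod, Nat.card_prod,
      Subgroup.card_eq_card_quotient_mul_card_subgroup N]
    exact le_of_eq (by ring)
  refine param (by omega) (X := (Fin n × (G ⧸ N)) × N) _
    (fun k q => ((T q.1 k).1, s (T q.1 k).2 * (c q.1 k (θ q.2 k) : G)))
    (fun q => (L (fun k => (T q.1 k).1), (List.ofFn (fun k => s (T q.1 k).2)).prod
      * (((List.ofFn (θ q.2)).prod : N) : G))) ?_ ?_ ?_ hcard hcard
  · rintro k ⟨i, g⟩
    obtain ⟨q, hq⟩ := (hT1 k).2 (i, (g : G ⧸ N))
    simp only at hq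
    have hmem : (s (T q k).2)⁻¹ * g ∈ N := by
      refine QuotientGroup.eq.1 ?_
      rw [hs, hq]
    obtain ⟨z, hz⟩ := (hθ1 k).2 ((c q k).symm ⟨_, hmem⟩)
    simp only at hz
    refine ⟨(q, z), ?_⟩
    simp only [hz, Equiv.apply_symm_apply, mul_inv_cancel_left]
    rw [hq]
  · rintro ⟨j, g⟩
    obtain ⟨q, hq⟩ := hT2.2 (j, (g : G ⧸ N))
    simp only [Prod.mk.injEq] at hq
    have hA : (((List.ofFn (fun k => s (T q k).2)).prod : G) : G ⧸ N) = g := by
      rw [← hq.2]
      have h1 := map_list_prod (QuotientGroup.mk' N) (List.ofFn (fun k => s (T q k).2))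
      rw [List.map_ofFn] at h1
      refine h1.trans ?_
      congr 2
      funext k
      exact hs _
    have hmem : ((List.ofFn (fun k => s (T q k).2)).prod)⁻¹ * g ∈ N := QuotientGroup.eq.1 hA
    obtain ⟨z, hz⟩ := hθ2.2 ⟨_, hmem⟩
    simp only at hz
    refine ⟨(q, z), ?_⟩
    simp only [hq.1, hz, mul_inv_cancel_left]
  · rintro ⟨q, z⟩
    refine Prod.ext rfl ?_
    exact hc q (θ z)

theorem solvable_caseH {d n : ℕ} (hd : 2 ≤ d) (L : (Fin d → Fin n) → Fin n) (e₀ : ℕ)
    (he₀ : ∀ e ≥ e₀, ∀ (F : Type) [Field F] [Finite F], e ∣ Nat.card F - 1 →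
      64 * e ^ 6 < Nat.card F →
      HasTransversalH (fun x : Fin d → Fin n × F => (L (fun k => (x k).1), ∑ k, (x k).2)))
    (p e : ℕ) (hp : p.Prime) (he : e₀ ≤ e) (h1 : e ∣ p - 1) (h2 : 64 * e ^ 6 < p) (m : ℕ) :
    ∀ (G : Type) [Group G] [Finite G] [Group.IsSolvable G], Nat.card G = m →
    (Odd d ∨ Odd (Nat.card G)) → p ∣ Nat.card G →
    HasTransversalH (fun x : Fin d → Fin n × G => (L (fun k => (x k).1),
      (List.ofFn (fun k => (x k).2)).prod)) := by
  induction m using Nat.strong_induction_on with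
  | _ m ih =>
    intro G _ _ _ hm hG hpG
    have : Fact p.Prime := ⟨hp⟩
    have hcG : 0 < Nat.card G := Nat.card_pos
    have hnt : Nontrivial G := by
      rw [← Finite.one_lt_card_iff_nontrivial]
      exact hp.one_lt.trans_le (Nat.le_of_dvd hcG hpG)
    obtain ⟨A, hA, hA1, hAc⟩ := exists_abelian_normal G
    by_cases hpA : p ∣ Nat.card A
    · obtain ⟨N, hN, j, hj, ⟨φ⟩⟩ := exists_elem A hA hAc p hpA
      have hcF : Nat.card (GaloisField p j) = p ^ j := GaloisField.card p j hj
      refine group_caseH hd L N (hG.imp id (fun hG => TH964.FP.odd_complete ?_)) φ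
        (he₀ e he (GaloisField p j) ?_ ?_)
      · exact Nat.Odd.of_mul_left (n := Nat.card N) (by
          show Odd (N.index * Nat.card N)
          rw [Subgroup.index_mul_card]; exact hG)
      · rw [hcF]
        refine h1.trans ?_
        simpa only [one_pow] using Nat.sub_dvd_pow_sub_pow p 1 j
      · rw [hcF]
        exact h2.trans_le (Nat.le_self_pow hj p)
    · have hcA : 1 < Nat.card A := by
        have := A.one_lt_card_iff_ne_bot
        exact this.2 hA1
      have hmul := Subgroup.card_eq_card_quotient_mul_card_subgroup A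
      have hcQ : 0 < Nat.card (G ⧸ A) := Nat.card_pos
      have hpQ : p ∣ Nat.card (G ⧸ A) := by
        rw [hmul] at hpG
        exact (hp.dvd_mul.1 hpG).resolve_right hpA
      have hlt : Nat.card (G ⧸ A) < m := by
        rw [← hm, hmul]
        exact (Nat.lt_mul_iff_one_lt_right hcQ).2 hcA
      have hoQ : Odd d ∨ Odd (Nat.card (G ⧸ A)) := hG.imp id (fun hG => by
        rw [hmul] at hG
        exact Nat.Odd.of_mul_left hG)
      have hoA : Odd d ∨ TH964.HP.HasTransversal (fun x y : A => x * y) :=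
        hG.imp id (fun hG => TH964.FP.odd_complete (by
          rw [hmul] at hG
          exact Nat.Odd.of_mul_right hG))
      exact ext2H hd L A hoA (ih _ hlt (G ⧸ A) rfl hoQ hpQ)

theorem almost_allS (d n : ℕ) (hd : 2 ≤ d) (hdn : Odd d ∨ Odd n)
    (ε : ℝ) (hε : 0 < ε) : ∃ X₀ : ℕ, ∀ X ≥ X₀,
      ({m : ℕ | m < X ∧ (Odd d ∨ Odd m) ∧ ∃ (G : Type) (_ : Group G) (_ : Finite G)
        (L : (Fin d → Fin n) → Fin n), Group.IsSolvable G ∧ Nat.card G = m ∧ IsHyper L ∧
        ¬ HasTransversalH (fun x : Fin d → Fin n × G => (L (fun k => (x k).1),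
          (List.ofFn (fun k => (x k).2)).prod))}.ncard : ℝ) ≤ ε * X := by
  classical
  obtain ⟨D, rfl⟩ : ∃ D, d = D + 2 := ⟨d - 2, by omega⟩
  obtain ⟨e₀, he₀⟩ := field_caseH D n hdn
  obtain ⟨S, hS, hK⟩ := TH964.FP.exists_set (e₀ + 1) (64 * (e₀ + 1) ^ 6) (- Real.log (ε / 2))
  obtain ⟨M, hM⟩ : ∃ M : ℕ, M = ∏ p ∈ S, p := ⟨_, rfl⟩
  obtain ⟨X₀, hX₀⟩ := exists_nat_ge (2 * (M : ℝ) / ε)
  refine ⟨X₀, fun X hX => ?_⟩
  have hsub : {m : ℕ | m < X ∧ (Odd (D + 2) ∨ Odd m) ∧ ∃ (G : Type) (_ : Group G) (_ : Finite G)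
        (L : (Fin (D + 2) → Fin n) → Fin n), Group.IsSolvable G ∧ Nat.card G = m ∧ IsHyper L ∧
        ¬ HasTransversalH (fun x : Fin (D + 2) → Fin n × G => (L (fun k => (x k).1),
          (List.ofFn (fun k => (x k).2)).prod))}
        ⊆ ((range X).filter (fun m => ∀ p ∈ S, ¬ p ∣ m) : Finset ℕ) := by
    rintro m ⟨hmX, hodd, G, _, _, L, hsol, hcard, hL, hnot⟩
    rw [Finset.coe_filter]
    refine ⟨mem_range.2 hmX, fun p hp hpm => hnot ?_⟩
    obtain ⟨hpp, hpB, hpq⟩ := hS p hp
    rw [← hcard] at hpm hodd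
    exact solvable_caseH hd L e₀ (he₀ L hL) p (e₀ + 1) hpp (Nat.le_succ _) hpq hpB _ G rfl hodd hpm
  have h1 := Set.ncard_le_ncard hsub (Finset.finite_toSet _)
  rw [Set.ncard_coe_finset] at h1
  have h2 := TH964.FP.sieve S (fun p hp => (hS p hp).1) X
  rw [← hM] at h2
  have h3 : Real.exp (- ∑ p ∈ S, (p : ℝ)⁻¹) ≤ ε / 2 := by
    rw [← Real.exp_log (show (0 : ℝ) < ε / 2 by positivity)]
    exact Real.exp_le_exp.2 (by linarith)
  have h4 : (M : ℝ) ≤ ε / 2 * X := by
    have h5 : 2 * (M : ℝ) / ε ≤ X := hX₀.trans (by exact_mod_cast hX)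
    rw [div_le_iff₀ hε] at h5
    linarith
  have h6 : (X : ℝ) * Real.exp (- ∑ p ∈ S, (p : ℝ)⁻¹) ≤ X * (ε / 2) :=
    mul_le_mul_of_nonneg_left h3 (by positivity)
  have h7 : ((_ : ℕ) : ℝ) ≤ _ := Nat.cast_le.2 h1
  refine h7.trans (h2.trans ?_)
  linarith

theorem ofFn_update_inj {G : Type} [Group G] : ∀ (d : ℕ) (f : Fin d → G) (j : Fin d),
    Function.Injective (fun g => (List.ofFn (Function.update f j g)).prod) := by
  intro d
  induction d with
  | zero => intro f j; exact j.elim0
  | succ d ih =>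
    intro f j g g' h
    simp only [List.ofFn_succ, List.prod_cons] at h
    rcases Fin.eq_zero_or_eq_succ j with rfl | ⟨j', rfl⟩
    · have h1 : ∀ g, (fun k : Fin d => Function.update f 0 g k.succ) = fun k => f k.succ := by
        intro g
        funext k
        rw [Function.update_of_ne (Fin.succ_ne_zero k)]
      rw [h1, h1, Function.update_self, Function.update_self] at h
      exact mul_right_cancel h
    · have h1 : ∀ g, (fun k : Fin d => Function.update f j'.succ g k.succ)
          = Function.update (fun k => f k.succ) j' g := by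
        intro g
        funext k
        by_cases hk : k = j'
        · subst hk; rw [Function.update_self, Function.update_self]
        · rw [Function.update_of_ne hk, Function.update_of_ne
            (fun h' => hk (Fin.succ_injective _ h'))]
      rw [h1, h1, Function.update_of_ne (Fin.succ_ne_zero j').symm,
        Function.update_of_ne (Fin.succ_ne_zero j').symm] at h
      exact ih _ j' (mul_left_cancel h)

/-- The products are Latin hypercubes. -/
theorem isHyper_prod {d n : ℕ} (L : (Fin d → Fin n) → Fin n) (hL : IsHyper L)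
    (G : Type) [Group G] [Finite G] :
    IsHyper (fun x : Fin d → Fin n × G => (L (fun k => (x k).1),
      (List.ofFn (fun k => (x k).2)).prod)) := by
  classical
  intro x j
  have hfst : ∀ r : Fin n × G, (fun k => (Function.update x j r k).1)
      = Function.update (fun k => (x k).1) j r.1 := by
    intro r
    funext k
    by_cases hk : k = j
    · subst hk; simp
    · simp [hk]
  have hsnd : ∀ r : Fin n × G, (fun k => (Function.update x j r k).2)
      = Function.update (fun k => (x k).2) j r.2 := by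
    intro r
    funext k
    by_cases hk : k = j
    · subst hk; simp
    · simp [hk]
  have : Function.Injective (fun r => (fun x : Fin d → Fin n × G => (L (fun k => (x k).1),
      (List.ofFn (fun k => (x k).2)).prod)) (Function.update x j r)) := by
    intro r r' h
    simp only [hfst, hsnd, Prod.mk.injEq] at h
    obtain ⟨h1, h2⟩ := h
    exact Prod.ext ((hL (fun k => (x k).1) j).injective h1) (ofFn_update_inj d _ j h2)
  exact Finite.injective_iff_bijective.1 this

theorem mainS (d n : ℕ) (hd : 2 ≤ d) (hdn : Odd d ∨ Odd n) :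
    (∀ ε : ℝ, 0 < ε → ∃ X₀ : ℕ, ∀ X ≥ X₀,
      ({m : ℕ | m < X ∧ (Odd d ∨ Odd m) ∧ ∃ (G : Type) (_ : Group G) (_ : Finite G)
        (L : (Fin d → Fin n) → Fin n), Group.IsSolvable G ∧ Nat.card G = m ∧ IsHyper L ∧
        ¬ HasTransversalH (fun x : Fin d → Fin n × G => (L (fun k => (x k).1),
          (List.ofFn (fun k => (x k).2)).prod))}.ncard : ℝ) ≤ ε * X) ∧
    ∃ e₀ : ℕ, ∀ L : (Fin d → Fin n) → Fin n, IsHyper L →
      (∀ (G : Type) [Group G] [Finite G],
        IsHyper (fun x : Fin d → Fin n × G => (L (fun k => (x k).1),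
          (List.ofFn (fun k => (x k).2)).prod))) ∧
      (∀ (G : Type) [Group G] [Finite G] (p e : ℕ), Group.IsSolvable G →
        (Odd d ∨ Odd (Nat.card G)) → p.Prime → p ∣ Nat.card G → e₀ ≤ e → e ∣ p - 1 →
        64 * e ^ 6 < p →
        HasTransversalH (fun x : Fin d → Fin n × G => (L (fun k => (x k).1),
          (List.ofFn (fun k => (x k).2)).prod))) ∧
      (∀ (F G : Type) [Field F] [Finite F] [Group G] [Finite G] (N : Subgroup G) [N.Normal]
        (K : Subgroup (G ⧸ N)) [K.Normal] (e : ℕ),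
        Nonempty (K ≃* Multiplicative F) → e₀ ≤ e → e ∣ Nat.card F - 1 →
        64 * e ^ 6 < Nat.card F →
        (Odd d ∨ (TH964.HP.HasTransversal (fun x y : N => x * y) ∧
          TH964.HP.HasTransversal (fun x y : (G ⧸ N) ⧸ K => x * y))) →
        HasTransversalH (fun x : Fin d → Fin n × G => (L (fun k => (x k).1),
          (List.ofFn (fun k => (x k).2)).prod))) := by
  refine ⟨almost_allS d n hd hdn, ?_⟩
  obtain ⟨D, rfl⟩ : ∃ D, d = D + 2 := ⟨d - 2, by omega⟩
  obtain ⟨e₀, he₀⟩ := field_caseH D n hdn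
  refine ⟨e₀, fun L hL => ⟨fun G _ _ => isHyper_prod L hL G, ?_, ?_⟩⟩
  · intro G _ _ p e hsol hG hp hpG he h1 h2
    exact solvable_caseH hd L e₀ (he₀ L hL) p e hp he h1 h2 _ G rfl hG hpG
  · intro F G _ _ _ _ N _ K _ e hφ he h1 h2 hN
    obtain ⟨φ⟩ := hφ
    exact ext2H hd L N (hN.imp id And.left)
      (group_caseH hd L K (hN.imp id And.right) φ (he₀ L hL e he F h1 h2))

end TH964.HC
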