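import Pool.Agent.TH964.HP.Lat
import Pool.Agent.TH964.HP.Obs

set_option autoImplicit false

/-! Integral weights on Latin hypercubes. -/

namespace TH964.HC

open Finset

section lattice

variable {K X V : Type} [Fintype K] [Fintype X] [Fintype V] [DecidableEq K] [DecidableEq X]
  [DecidableEq V]

/-- The line sums. -/
def lineSums (cls : K → X → V) : (X → ℤ) →+ (K → V → ℤ) where
  toFun w := fun κ i => ∑ x, if cls κ x = i then w x else 0
  map_zero' := by funext κ i; simp
  map_add' := by
    intro w w'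
    funext κ i
    simp only [Pi.add_apply]
    rw [← Finset.sum_add_distrib]
    refine Finset.sum_congr rfl (fun x _ => ?_)
    split_ifs <;> simp

theorem lineSums_single (cls : K → X → V) (x : X) :
    lineSums cls (Pi.single x 1) = ∑ κ, Pi.single κ (Pi.single (cls κ x) 1) := by
  funext κ i
  simp only [lineSums, AddMonoidHom.coe_mk, ZeroHom.coe_mk, Finset.sum_apply]
  rw [Finset.sum_eq_single x, Finset.sum_eq_single κ]
  · by_cases h : cls κ x = i
    · subst h; simp
    · simp [h, Ne.symm h]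
  · intro b _ hb
    rw [Pi.single_eq_of_ne hb.symm]; rfl
  · simp
  · intro b _ hb
    simp [Pi.single_eq_of_ne hb]
  · simp

theorem exists_weights (cls : K → X → V)
    (hno : ∀ (T : Type) [AddCommGroup T] (a : K → V → T), (∀ x, ∑ κ, a κ (cls κ x) = 0) →
      ∑ κ, ∑ i, a κ i = 0) :
    ∃ w : X → ℤ, ∀ κ i, (∑ x, if cls κ x = i then w x else 0) = 1 := by
  have hmk : ∀ y : K → V → ℤ,
      QuotientAddGroup.mk' (lineSums cls).range y = 0 ↔ ∃ w, lineSums cls w = y := by
    intro y
    rw [QuotientAddGroup.mk'_apply, QuotientAddGroup.eq_zero_iff]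
    exact Iff.rfl
  have key := hno ((K → V → ℤ) ⧸ (lineSums cls).range)
    (fun κ i => QuotientAddGroup.mk' (lineSums cls).range (Pi.single κ (Pi.single i 1))) (by
      intro x
      rw [← map_sum, hmk]
      exact ⟨Pi.single x 1, lineSums_single cls x⟩)
  simp_rw [← map_sum] at key
  rw [hmk] at key
  obtain ⟨w, hw⟩ := key
  refine ⟨w, fun κ i => ?_⟩
  have h1 := congrFun (congrFun hw κ) i
  simp only [lineSums, AddMonoidHom.coe_mk, ZeroHom.coe_mk] at h1
  rw [h1]
  simp only [Finset.sum_apply]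
  rw [Finset.sum_eq_single κ]
  · simp [Pi.single_apply]
  · intro b _ hb
    refine Finset.sum_eq_zero (fun i' _ => ?_)
    rw [Pi.single_eq_of_ne hb.symm]; rfl
  · simp

end lattice

/-- Latin hypercubes: along every line every symbol occurs exactly once. -/
def IsHyper {d : ℕ} {R S : Type} (L : (Fin d → R) → S) : Prop :=
  ∀ (x : Fin d → R) (j : Fin d), Function.Bijective (fun a => L (Function.update x j a))

/-- A transversal: cells `T i`, `i ∈ R`, such that in each coordinate every value occurs exactly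
once and every symbol occurs exactly once. -/
def HasTransversalH {d : ℕ} {R S : Type} (L : (Fin d → R) → S) : Prop :=
  ∃ T : R → (Fin d → R), (∀ j, Function.Bijective (fun i => T i j)) ∧
    Function.Bijective (fun i => L (T i))

/-- The coordinates and the symbol. -/
def cls {d n : ℕ} (L : (Fin d → Fin n) → Fin n) : Option (Fin d) → (Fin d → Fin n) → Fin n
  | some k => fun x => x k
  | none => L

theorem no_obstruction {d n : ℕ} (hd : 2 ≤ d) (hn : 0 < n) (hodd : Odd d ∨ Odd n)
    (L : (Fin d → Fin n) → Fin n) (hL : IsHyper L) (T : Type) [AddCommGroup T]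
    (a : Option (Fin d) → Fin n → T) (h : ∀ x, ∑ κ, a κ (cls L κ x) = 0) :
    ∑ κ, ∑ i, a κ i = 0 := by
  classical
  obtain ⟨x0, hx0⟩ : ∃ x0 : Fin d → Fin n, x0 = fun _ => ⟨0, hn⟩ := ⟨_, rfl⟩
  have hx0k : ∀ k, x0 k = ⟨0, hn⟩ := fun k => by rw [hx0]
  have h' : ∀ x, a none (L x) = - ∑ k, a (some k) (x k) := by
    intro x
    have := h x
    rw [Fintype.sum_option] at this
    exact eq_neg_of_add_eq_zero_left this
  -- normalised functions
  let β : Fin d → Fin n → T := fun k i => a (some k) i - a (some k) ⟨0, hn⟩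
  let γ : Fin n → T := fun s => a none (L x0) - a none s
  have hγ : ∀ x, γ (L x) = ∑ k, β k (x k) := by
    intro x
    simp only [γ, β]
    rw [h' x, h' x0, Finset.sum_sub_distrib]
    simp only [hx0k]
    abel
  have hβ0 : ∀ k, β k ⟨0, hn⟩ = 0 := fun k => sub_self _
  have hupd : ∀ k i, γ (L (Function.update x0 k i)) = β k i := by
    intro k i
    rw [hγ, Finset.sum_eq_single k]
    · simp
    · intro b _ hb
      rw [Function.update_of_ne hb, hx0k, hβ0]
    · simp
  have hsum : ∀ k, ∑ i, β k i = ∑ s, γ s := by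
    intro k
    rw [← (Equiv.ofBijective _ (hL x0 k)).sum_comp γ]
    refine Finset.sum_congr rfl (fun i _ => ?_)
    rw [Equiv.ofBijective_apply, hupd]
  -- a Latin square
  let k0 : Fin d := ⟨0, by omega⟩
  let k1 : Fin d := ⟨1, by omega⟩
  have hk : k0 ≠ k1 := fun h => Nat.one_ne_zero (congrArg Fin.val h).symm
  let M : Fin n → Fin n → Fin n := fun i j => L (Function.update (Function.update x0 k0 i) k1 j)
  have hM : TH964.HP.IsLatin M := by
    refine ⟨fun i => hL (Function.update x0 k0 i) k1, fun j => ?_⟩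
    have := hL (Function.update x0 k1 j) k0
    have e : (fun i => M i j)
        = fun i => L (Function.update (Function.update x0 k1 j) k0 i) := by
      funext i
      simp only [M]
      rw [Function.update_comm hk]
    rw [e]
    exact this
  have hMh : ∀ i j, β k0 i + β k1 j = γ (M i j) := by
    intro i j
    simp only [M]
    rw [hγ, ← Finset.add_sum_erase _ _ (mem_univ k0),
      ← Finset.add_sum_erase _ _ (Finset.mem_erase.2 ⟨hk.symm, mem_univ k1⟩)]
    rw [Finset.sum_eq_zero]
    · rw [Function.update_of_ne hk, Function.update_self, Function.update_self, add_zero]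
    · intro k hk'
      have h1 : k ≠ k1 := Finset.ne_of_mem_erase hk'
      have h2 : k ≠ k0 := Finset.ne_of_mem_erase (Finset.mem_of_mem_erase hk')
      rw [Function.update_of_ne h1, Function.update_of_ne h2, hx0k, hβ0]
  obtain ⟨f, hf1, hf2, hf3, hf4⟩ := TH964.HP.core M hM (β k0) (β k1) γ hMh ⟨0, hn⟩ ⟨0, hn⟩
    (hβ0 _) (hβ0 _)
  rw [Fintype.card_fin] at hf1
  obtain ⟨τ, hτ⟩ : ∃ τ, τ = ∑ s, γ s := ⟨_, rfl⟩
  rw [hsum k1, ← hτ] at hf2
  have h2τ : 2 • τ = 0 := by rw [hf2, smul_comm, hf3, smul_zero]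
  have hτd : d • τ = τ := by
    rcases hodd with ho | ho
    · exact TH964.HP.odd_smul τ h2τ d ho
    · have hny : ∀ y ∈ univ.image (β k1), n • y = 0 := by
        intro y hy
        have e1 := congrArg (fun m : ℕ => m • y) hf1
        rw [← e1, mul_smul, hf4 y hy, smul_zero]
      have h0 : τ = 0 := by
        rw [← TH964.HP.odd_smul τ h2τ n ho, hf2, smul_comm, Finset.smul_sum,
          Finset.sum_eq_zero hny, smul_zero]
      rw [h0, smul_zero]
  -- total
  rw [Fintype.sum_option]
  have e1 : ∑ i, a none i = n • a none (L x0) - τ := by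
    rw [hτ]
    simp only [γ]
    rw [Finset.sum_sub_distrib, Finset.sum_const, Finset.card_univ, Fintype.card_fin]
    abel
  have e2 : ∀ k : Fin d, ∑ i, a (some k) i = τ + n • a (some k) ⟨0, hn⟩ := by
    intro k
    have := hsum k
    rw [← hτ] at this
    simp only [β] at this
    rw [Finset.sum_sub_distrib, Finset.sum_const, Finset.card_univ, Fintype.card_fin] at this
    rw [← this]
    abel
  rw [e1, Finset.sum_congr rfl (fun k _ => e2 k), Finset.sum_add_distrib, Finset.sum_const,
    Finset.card_univ, Fintype.card_fin, hτd, ← Finset.smul_sum, h' x0]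
  simp only [hx0k]
  rw [smul_neg]
  abel

/-- All classes have the same number of cells. -/
theorem card_class {d n : ℕ} (L : (Fin d → Fin n) → Fin n) (hL : IsHyper L) (k : Fin d)
    (i j : Fin n) : Fintype.card {x : Fin d → Fin n // x k = i}
      = Fintype.card {x : Fin d → Fin n // L x = j} := by
  classical
  refine Fintype.card_congr
    ⟨fun x => ⟨Function.update x.1 k ((Equiv.ofBijective _ (hL x.1 k)).symm j), ?_⟩,
      fun y => ⟨Function.update y.1 k i, Function.update_self _ _ _⟩, ?_, ?_⟩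
  · exact (Equiv.ofBijective _ (hL x.1 k)).apply_symm_apply j
  · rintro ⟨x, rfl⟩
    simp
  · rintro ⟨y, rfl⟩
    apply Subtype.ext
    simp only
    rw [Function.update_idem]
    have : (Equiv.ofBijective _ (hL (Function.update y k i) k)).symm (L y) = y k := by
      rw [Equiv.symm_apply_eq]
      show L y = L (Function.update (Function.update y k i) k (y k))
      rw [Function.update_idem, Function.update_eq_self]
    rw [this, Function.update_eq_self]

theorem big_weights {d n : ℕ} (hd : 2 ≤ d) (hn : 0 < n) (L : (Fin d → Fin n) → Fin n)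
    (hL : IsHyper L) (w : (Fin d → Fin n) → ℤ)
    (hw : ∀ κ i, (∑ x, if cls L κ x = i then w x else 0) = 1) :
    ∃ m₀ : ℕ, ∀ e ≥ m₀, ∃ W : (Fin d → Fin n) → ℕ,
      ∀ κ i, (∑ x, if cls L κ x = i then W x else 0) = e := by
  classical
  obtain ⟨C, hC⟩ : ∃ C : ℕ, C = Fintype.card {x : Fin d → Fin n // L x = ⟨0, hn⟩} := ⟨_, rfl⟩
  have hcount : ∀ κ i, Fintype.card {x : Fin d → Fin n // cls L κ x = i} = C := by
    intro κ i
    rcases κ with _ | k
    · have h1 := card_class L hL ⟨0, by omega⟩ ⟨0, hn⟩ i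
      have h2 := card_class L hL ⟨0, by omega⟩ ⟨0, hn⟩ ⟨0, hn⟩
      rw [hC, ← h2, h1]
      rfl
    · rw [hC, ← card_class L hL k i ⟨0, hn⟩]
      rfl
  have hC0 : 0 < C := by
    rw [← hcount (some ⟨0, by omega⟩) ⟨0, hn⟩]
    exact Fintype.card_pos_iff.2 ⟨⟨fun _ => ⟨0, hn⟩, rfl⟩⟩
  have hone : ∀ κ i (y : ℤ), (∑ x, if cls L κ x = i then y else 0) = C * y := by
    intro κ i y
    rw [← Finset.sum_filter, Finset.sum_const, ← hcount κ i, Fintype.card_subtype, nsmul_eq_mul]
  obtain ⟨K, hK⟩ : ∃ K : ℕ, ∀ c, |w c| ≤ K := by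
    refine ⟨∑ c, (w c).natAbs, fun c => ?_⟩
    have h1 : (w c).natAbs ≤ ∑ c, (w c).natAbs :=
      Finset.single_le_sum (f := fun c => (w c).natAbs) (fun _ _ => Nat.zero_le _) (mem_univ c)
    rw [Int.abs_eq_natAbs]
    exact_mod_cast h1
  refine ⟨C * (C * K) + C, fun e he => ?_⟩
  obtain ⟨t, r, hr, het⟩ : ∃ t r : ℕ, r < C ∧ e = C * t + r :=
    ⟨e / C, e % C, Nat.mod_lt _ hC0, (Nat.div_add_mod e C).symm⟩
  have ht : C * K ≤ t := by
    by_contra hlt
    push Not at hlt
    have h1 : C * t + r < C * (t + 1) := by rw [mul_add, mul_one]; omega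
    have h2 : C * (t + 1) ≤ C * (C * K) := Nat.mul_le_mul_left _ hlt
    omega
  obtain ⟨v, hv⟩ : ∃ v : (Fin d → Fin n) → ℤ, v = fun c => (t : ℤ) + r * w c := ⟨_, rfl⟩
  have hvB : ∀ c, 0 ≤ v c := by
    intro c
    have h1 : |(r : ℤ) * w c| ≤ C * K := by
      rw [abs_mul]
      have h1 : |(r : ℤ)| ≤ C := by
        rw [abs_of_nonneg (by positivity)]
        exact_mod_cast hr.le
      exact mul_le_mul h1 (hK c) (abs_nonneg _) (by positivity)
    have h2 := (abs_le.1 h1).1
    have h3 : (C : ℤ) * K ≤ t := by exact_mod_cast ht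
    rw [hv]; simp only; linarith
  have hto : ∀ c, ((v c).toNat : ℤ) = v c := fun c => Int.toNat_of_nonneg (hvB c)
  refine ⟨fun c => (v c).toNat, fun κ i => ?_⟩
  zify
  simp_rw [hto]
  have : ∀ c, (if cls L κ c = i then v c else 0)
      = (if cls L κ c = i then (t : ℤ) else 0) + r * (if cls L κ c = i then w c else 0) := by
    intro c
    rw [hv]
    split_ifs <;> simp
  simp_rw [this, Finset.sum_add_distrib, ← Finset.mul_sum]
  rw [hone, hw, het]
  push_cast
  ring

end TH964.HC
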