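import Pool.Agent.TH964.FP.Cells
import Pool.Agent.TH964.HC.Wt

set_option autoImplicit false

/-! The generic absorber in higher dimension: linear functionals. -/

namespace TH964.HC

open Finset TH964.FP

abbrev Ext (d P Q : ℕ) : Type :=
  (Fin d × Fin Q) ⊕ (Fin d × (Fin P ⊕ Fin Q)) ⊕ (Fin d × (Fin P ⊕ Fin Q))

abbrev PM (d P Q : ℕ) : Type := Pm P Q ⊕ Ext d P Q

instance instDecEqPM (d P Q : ℕ) : DecidableEq (PM d P Q) := instDecidableEqSum

section

variable (F : Type) [Field F] {d P Q : ℕ}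

def pr : (PM d P Q → F) →ₗ[F] (Pm P Q → F) := LinearMap.funLeft F F Sum.inl

def ex (ε : Ext d P Q) : (PM d P Q → F) →ₗ[F] F := LinearMap.proj (Sum.inr ε)

def io (d : ℕ) (w : Pm P Q → F) : PM d P Q → F := Sum.elim w (fun _ => 0)

theorem pr_io (w : Pm P Q → F) : pr F (io F d w) = w := rfl

theorem ex_io (ε : Ext d P Q) (w : Pm P Q → F) : ex F ε (io F d w) = 0 := rfl

theorem ex_single (ε ε' : Ext d P Q) :
    ex F ε (Pi.single (Sum.inr ε') 1) = if ε = ε' then 1 else 0 := by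
  simp [ex, Pi.single_apply]

theorem sep_ex {ε ε' : Ext d P Q} (h : ε ≠ ε') : Sep (ex F ε) (ex F ε') := by
  refine ⟨Pi.single (Sum.inr ε) 1, Or.inr ⟨?_, ?_⟩⟩
  · rw [ex_single, if_pos rfl]; exact one_ne_zero
  · rw [ex_single, if_neg h.symm]

/-- Extension by zero and copies. -/
def out {W Z : Type} [Zero W] (ρ : Fin P ≃ Z ⊕ Fin Q) (X : Fin Q → W) : (Fin P ⊕ Fin Q) → W :=
  Sum.elim (fun a => Sum.elim (fun _ => 0) X (ρ a)) X

theorem out_inl {W Z : Type} [Zero W] (r : Fin P ≃ Z ⊕ Fin Q) (X : Fin Q → W) (z : Z) :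
    out r X (Sum.inl (r.symm (Sum.inl z))) = 0 := by
  simp [out]

theorem out_inr {W Z : Type} [Zero W] (r : Fin P ≃ Z ⊕ Fin Q) (X : Fin Q → W)
    (f : Fin Q) : out r X (Sum.inl (r.symm (Sum.inr f))) = X f := by
  simp [out]

theorem sum_out {V : Type} [AddCommGroup V] [Module F V] {Z : Type} [Fintype Z]
    (ρ : Fin P ≃ Z ⊕ Fin Q) (X : Fin Q → V →ₗ[F] F) : ∑ e, sg F e • out ρ X e = 0 := by
  refine LinearMap.ext (fun w => ?_)
  rw [Fintype.sum_sum_type]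
  simp only [sg, out, Sum.elim_inl, Sum.elim_inr, LinearMap.add_apply, LinearMap.sum_apply,
    LinearMap.smul_apply, smul_eq_mul, one_mul, neg_mul, Finset.sum_neg_distrib,
    LinearMap.zero_apply]
  rw [ρ.sum_comp (fun s => (Sum.elim (fun _ => (0 : V →ₗ[F] F)) X s) w),
    Fintype.sum_sum_type]
  simp

variable {n : ℕ} (ρ : Fin 3 ⊕ Fin d → (Fin P ≃ Fin n ⊕ Fin Q))

def tu (k : Fin d) (e : Fin P ⊕ Fin Q) : (PM d P Q → F) →ₗ[F] F :=
  out (ρ (Sum.inr k)) (fun f => ex F (Sum.inl (k, f))) e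

def tc (k : Fin d) (e : Fin P ⊕ Fin Q) : (PM d P Q → F) →ₗ[F] F :=
  ex F (Sum.inr (Sum.inl (k, e)))

def tc' (k : Fin d) (e : Fin P ⊕ Fin Q) : (PM d P Q → F) →ₗ[F] F :=
  ex F (Sum.inr (Sum.inr (k, e)))

def UU (e : Fin P ⊕ Fin Q) : (PM d P Q → F) →ₗ[F] F := ∑ k, tu F ρ k e

def CC (e : Fin P ⊕ Fin Q) : (PM d P Q → F) →ₗ[F] F := ∑ k, tc F k e

def CC' (e : Fin P ⊕ Fin Q) : (PM d P Q → F) →ₗ[F] F := ∑ k, tc' F k e

def EE (e : Fin P ⊕ Fin Q) : (PM d P Q → F) →ₗ[F] F :=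
  ∑ e', if (finSumFinEquiv e' : Fin (P + Q)) < finSumFinEquiv e then sg F e' • UU F ρ e' else 0

theorem sum_UU : ∑ e, sg F e • UU F ρ e = 0 := by
  simp only [UU, Finset.smul_sum]
  rw [Finset.sum_comm]
  refine Finset.sum_eq_zero (fun k _ => ?_)
  exact sum_out F (ρ (Sum.inr k)) (fun f => ex F (Sum.inl (k, f)))

theorem EE_succ (e : Fin P ⊕ Fin Q) :
    EE F ρ (sc P Q e) = EE F ρ e + sg F e • UU F ρ e := by
  classical
  have hv := sc_val e
  have hrhs : EE F ρ e + sg F e • UU F ρ e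
      = ∑ e', if ((finSumFinEquiv e' : Fin (P + Q)) : ℕ) < (finSumFinEquiv e : Fin (P + Q)) + 1
        then sg F e' • UU F ρ e' else 0 := by
    have h1 : sg F e • UU F ρ e = ∑ e', if e' = e then sg F e' • UU F ρ e' else 0 := by simp
    rw [h1, EE, ← Finset.sum_add_distrib]
    refine Finset.sum_congr rfl (fun e' _ => ?_)
    by_cases he : e' = e
    · subst he
      simp
    · have hne : ((finSumFinEquiv e' : Fin (P + Q)) : ℕ) ≠ (finSumFinEquiv e : Fin (P + Q)) :=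
        fun h => he (idx_inj h)
      rw [if_neg he, add_zero]
      by_cases hlt : (finSumFinEquiv e' : Fin (P + Q)) < finSumFinEquiv e
      · rw [if_pos hlt, if_pos]
        have : ((finSumFinEquiv e' : Fin (P + Q)) : ℕ) < (finSumFinEquiv e : Fin (P + Q)) := hlt
        omega
      · rw [if_neg hlt, if_neg]
        have : ¬ ((finSumFinEquiv e' : Fin (P + Q)) : ℕ) < (finSumFinEquiv e : Fin (P + Q)) := hlt
        omega
  rw [hrhs]
  by_cases hlast : ((finSumFinEquiv e : Fin (P + Q)) : ℕ) + 1 = P + Q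
  · rw [if_pos hlast] at hv
    have h1 : EE F ρ (sc P Q e) = 0 := by
      refine Finset.sum_eq_zero (fun e' _ => ?_)
      rw [if_neg]
      intro hlt
      have : ((finSumFinEquiv e' : Fin (P + Q)) : ℕ) < (finSumFinEquiv (sc P Q e) : Fin (P + Q)) :=
        hlt
      omega
    rw [h1, hlast, ← sum_UU F ρ]
    refine Finset.sum_congr rfl (fun e' _ => ?_)
    rw [if_pos (finSumFinEquiv e').isLt]
  · rw [if_neg hlast] at hv
    rw [EE]
    refine Finset.sum_congr rfl (fun e' _ => ?_)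
    have : ((finSumFinEquiv e' : Fin (P + Q)) < finSumFinEquiv (sc P Q e)) ↔
        ((finSumFinEquiv e' : Fin (P + Q)) : ℕ) < (finSumFinEquiv e : Fin (P + Q)) + 1 := by
      rw [Fin.lt_def, hv]
    simp only [this]

theorem UU_io (e : Fin P ⊕ Fin Q) (w : Pm P Q → F) : UU F ρ e (io F d w) = 0 := by
  rw [UU, LinearMap.sum_apply]
  refine Finset.sum_eq_zero (fun k _ => ?_)
  rw [tu, out]
  rcases e with a | f
  · simp only [Sum.elim_inl]
    rcases ρ (Sum.inr k) a with z | f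
    · simp
    · exact ex_io F _ w
  · exact ex_io F _ w

theorem CC_io (e : Fin P ⊕ Fin Q) (w : Pm P Q → F) : CC F e (io F d w) = 0 := by
  rw [CC, LinearMap.sum_apply]
  exact Finset.sum_eq_zero (fun k _ => ex_io F _ w)

theorem CC'_io (e : Fin P ⊕ Fin Q) (w : Pm P Q → F) : CC' F e (io F d w) = 0 := by
  rw [CC', LinearMap.sum_apply]
  exact Finset.sum_eq_zero (fun k _ => ex_io F _ w)

theorem EE_io (e : Fin P ⊕ Fin Q) (w : Pm P Q → F) : EE F ρ e (io F d w) = 0 := by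
  rw [EE, LinearMap.sum_apply]
  refine Finset.sum_eq_zero (fun e' _ => ?_)
  split_ifs
  · rw [LinearMap.smul_apply, UU_io, smul_zero]
  · rfl

/-- Corrections for the old cells. -/
noncomputable def corO : Fin 3 → OI P Q → (PM d P Q → F) →ₗ[F] F
  | 0 => Sum.elim (fun _ => 0) (Sum.elim (fun _ => 0) (fun e => - EE F ρ (lam P Q e) - CC' F e))
  | 1 => Sum.elim (fun _ => 0) (Sum.elim (fun _ => 0) (fun e => EE F ρ (sc P Q e)))
  | 2 => Sum.elim (fun f => UU F ρ (Sum.inr f)) (Sum.elim (fun e => CC F e)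
      (Sum.elim (fun a => UU F ρ (Sum.inl a)) (fun _ => 0)))

/-- Corrections for the new cells. -/
noncomputable def corN : Fin 3 → NI P Q → (PM d P Q → F) →ₗ[F] F
  | 0 => Sum.elim (fun _ => 0) (Sum.elim (fun _ => 0) (fun e => - EE F ρ (lam P Q e) - CC' F e))
  | 1 => Sum.elim (fun _ => 0) (Sum.elim (fun _ => 0) (fun e => EE F ρ e))
  | 2 => Sum.elim (fun a => UU F ρ (Sum.inl a)) (Sum.elim (fun e => CC F e)
      (Sum.elim (fun _ => 0) (fun f => UU F ρ (Sum.inr f))))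

noncomputable def tO : Fin 3 ⊕ Fin d → OI P Q → (PM d P Q → F) →ₗ[F] F
  | Sum.inl s => fun o => (tokO F (fun s => ρ (Sum.inl s)) s o).comp (pr F) + corO F ρ s o
  | Sum.inr k => Sum.elim (fun f => tu F ρ k (Sum.inr f))
      (Sum.elim (fun e => tc F k e) (fun e => tc' F k e))

noncomputable def tN : Fin 3 ⊕ Fin d → NI P Q → (PM d P Q → F) →ₗ[F] F
  | Sum.inl s => fun o => (tokN F (fun s => ρ (Sum.inl s)) s o).comp (pr F) + corN F ρ s o
  | Sum.inr k => Sum.elim (fun a => tu F ρ k (Sum.inl a))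
      (Sum.elim (fun e => tc F k e) (fun e => tc' F k e))

theorem tO_add (o : OI P Q) : tO F ρ (Sum.inl 0) o + tO F ρ (Sum.inl 1) o
    + ∑ k, tO F ρ (Sum.inr k) o = tO F ρ (Sum.inl 2) o := by
  have h := tokO_add F (fun s => ρ (Sum.inl s)) o
  refine LinearMap.ext (fun w => ?_)
  have h1 := LinearMap.congr_fun h (pr F w)
  rw [LinearMap.add_apply] at h1
  simp only [tO, LinearMap.add_apply, LinearMap.comp_apply, ← h1]
  rcases o with f | e | (a | f)
  · simp only [corO, Sum.elim_inl, LinearMap.zero_apply, UU]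
    ring
  · simp only [corO, Sum.elim_inl, Sum.elim_inr, LinearMap.zero_apply, CC]
    ring
  · have h2 := LinearMap.congr_fun (EE_succ F ρ (Sum.inl a)) w
    have h3 : lam P Q (Sum.inl a) = Sum.inl a := rfl
    simp only [corO, Sum.elim_inl, Sum.elim_inr, h3, LinearMap.sub_apply, LinearMap.neg_apply,
      h2, LinearMap.add_apply, LinearMap.smul_apply, sg, one_smul, CC']
    ring
  · have h3 : lam P Q (Sum.inr f : Fin P ⊕ Fin Q) = sc P Q (Sum.inr f) := rfl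
    simp only [corO, Sum.elim_inr, h3, LinearMap.sub_apply, LinearMap.neg_apply,
      LinearMap.zero_apply, CC']
    ring

theorem tN_add (o : NI P Q) : tN F ρ (Sum.inl 0) o + tN F ρ (Sum.inl 1) o
    + ∑ k, tN F ρ (Sum.inr k) o = tN F ρ (Sum.inl 2) o := by
  have h := tokN_add F (fun s => ρ (Sum.inl s)) o
  refine LinearMap.ext (fun w => ?_)
  have h1 := LinearMap.congr_fun h (pr F w)
  rw [LinearMap.add_apply] at h1
  simp only [tN, LinearMap.add_apply, LinearMap.comp_apply, ← h1]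
  rcases o with a | e | (a | f)
  · simp only [corN, Sum.elim_inl, LinearMap.zero_apply, UU]
    ring
  · simp only [corN, Sum.elim_inl, Sum.elim_inr, LinearMap.zero_apply, CC]
    ring
  · have h3 : lam P Q (Sum.inl a) = Sum.inl a := rfl
    simp only [corN, Sum.elim_inl, Sum.elim_inr, h3, LinearMap.sub_apply, LinearMap.neg_apply,
      LinearMap.zero_apply, CC']
    ring
  · have h2 := LinearMap.congr_fun (EE_succ F ρ (Sum.inr f)) w
    have h3 : lam P Q (Sum.inr f : Fin P ⊕ Fin Q) = sc P Q (Sum.inr f) := rfl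
    simp only [corN, Sum.elim_inr, h3, LinearMap.sub_apply, LinearMap.neg_apply,
      h2, LinearMap.add_apply, LinearMap.smul_apply, sg, CC', smul_eq_mul]
    ring

theorem corO_io (s : Fin 3) (o : OI P Q) (w : Pm P Q → F) : corO F ρ s o (io F d w) = 0 := by
  match s with
  | 0 =>
    rcases o with f | e | e
    · rfl
    · rfl
    · show (- EE F ρ (lam P Q e) - CC' F e : (PM d P Q → F) →ₗ[F] F) (io F d w) = 0
      rw [LinearMap.sub_apply, LinearMap.neg_apply, EE_io, CC'_io]; simp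
  | 1 =>
    rcases o with f | e | e
    · rfl
    · rfl
    · exact EE_io F ρ _ w
  | 2 =>
    rcases o with f | e | (a | f)
    · exact UU_io F ρ _ w
    · exact CC_io F _ w
    · exact UU_io F ρ _ w
    · rfl

theorem tO_io (s : Fin 3) (o : OI P Q) (w : Pm P Q → F) :
    tO F ρ (Sum.inl s) o (io F d w) = tokO F (fun s => ρ (Sum.inl s)) s o w := by
  simp only [tO, LinearMap.add_apply, LinearMap.comp_apply, corO_io, pr_io, add_zero]

variable {F ρ}

theorem tO_ne (h3 : 3 ≤ P + Q) (s : Fin 3 ⊕ Fin d) (o : OI P Q) : ∃ w, tO F ρ s o w ≠ 0 := by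
  rcases s with s | k
  · obtain ⟨w, hw⟩ := tokO_ne (F := F) (ρ := fun s => ρ (Sum.inl s)) h3 s o
    exact ⟨io F d w, by rwa [tO_io]⟩
  · rcases o with f | e | e
    · refine ⟨Pi.single (Sum.inr (Sum.inl (k, f))) 1, ?_⟩
      show ex F (Sum.inl (k, f)) _ ≠ 0
      rw [ex_single, if_pos rfl]; exact one_ne_zero
    · refine ⟨Pi.single (Sum.inr (Sum.inr (Sum.inl (k, e)))) 1, ?_⟩
      show ex F (Sum.inr (Sum.inl (k, e))) _ ≠ 0
      rw [ex_single, if_pos rfl]; exact one_ne_zero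
    · refine ⟨Pi.single (Sum.inr (Sum.inr (Sum.inr (k, e)))) 1, ?_⟩
      show ex F (Sum.inr (Sum.inr (k, e))) _ ≠ 0
      rw [ex_single, if_pos rfl]; exact one_ne_zero

theorem tO_sep (h3 : 3 ≤ P + Q)
    (hS : ∀ a : Fin P, (a : ℕ) = 0 → ∃ z, ρ (Sum.inl 2) a = Sum.inl z)
    (hC : ∀ (a : Fin P) (f : Fin Q), (a : ℕ) = 0 → (f : ℕ) + 1 = Q →
      ρ (Sum.inl 1) a ≠ Sum.inr f)
    (s : Fin 3 ⊕ Fin d) (o o' : OI P Q) (h : o ≠ o') : Sep (tO F ρ s o) (tO F ρ s o') := by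
  rcases s with s | k
  · obtain ⟨w, hw⟩ := tokO_sep (F := F) (ρ := fun s => ρ (Sum.inl s)) h3 hS hC s o o' h
    exact ⟨io F d w, by rwa [tO_io, tO_io]⟩
  · rcases o with f | e | e <;> rcases o' with f' | e' | e'
    · exact sep_ex F (ε := Sum.inl (k, f)) (ε' := Sum.inl (k, f')) (by simpa using h)
    · exact sep_ex F (ε := Sum.inl (k, f)) (ε' := Sum.inr (Sum.inl (k, e'))) (by simp)
    · exact sep_ex F (ε := Sum.inl (k, f)) (ε' := Sum.inr (Sum.inr (k, e'))) (by simp)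
    · exact sep_ex F (ε := Sum.inr (Sum.inl (k, e))) (ε' := Sum.inl (k, f')) (by simp)
    · exact sep_ex F (ε := Sum.inr (Sum.inl (k, e))) (ε' := Sum.inr (Sum.inl (k, e')))
        (by simpa using h)
    · exact sep_ex F (ε := Sum.inr (Sum.inl (k, e))) (ε' := Sum.inr (Sum.inr (k, e'))) (by simp)
    · exact sep_ex F (ε := Sum.inr (Sum.inr (k, e))) (ε' := Sum.inl (k, f')) (by simp)
    · exact sep_ex F (ε := Sum.inr (Sum.inr (k, e))) (ε' := Sum.inr (Sum.inl (k, e'))) (by simp)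
    · exact sep_ex F (ε := Sum.inr (Sum.inr (k, e))) (ε' := Sum.inr (Sum.inr (k, e')))
        (by simpa using h)

end

section cells

/-- The class maps of the cells: the first two coordinates, the symbol, the other coordinates. -/
def kp {n d : ℕ} (L : (Fin (d + 2) → Fin n) → Fin n) :
    Fin 3 ⊕ Fin d → (Fin (d + 2) → Fin n) → Fin n
  | Sum.inl 0 => fun c => c 0
  | Sum.inl 1 => fun c => c 1
  | Sum.inl 2 => L
  | Sum.inr k => fun c => c k.succ.succ

variable {n d P Q : ℕ} (L : (Fin (d + 2) → Fin n) → Fin n) (cp : Fin P → Fin (d + 2) → Fin n)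
  (cn : Fin Q → Fin (d + 2) → Fin n) (o₀ : Fin n) (inv : Fin n → Fin n)

def gad : (Fin P ⊕ Fin Q) ⊕ (Fin P ⊕ Fin Q) → Fin (d + 2) → Fin n :=
  Sum.elim (fun e => Function.update (fun _ => o₀) 1 (Sum.elim cp cn e 1))
    (fun e => Function.update (fun _ => o₀) 0 (inv (L (Sum.elim cp cn e))))

def cO : OI P Q → Fin (d + 2) → Fin n := Sum.elim cn (gad L cp cn o₀ inv)

def cN : NI P Q → Fin (d + 2) → Fin n := Sum.elim cp (gad L cp cn o₀ inv)

variable (F : Type) [Field F] (ρ : Fin 3 ⊕ Fin d → (Fin P ≃ Fin n ⊕ Fin Q))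

variable {L cp cn o₀ inv} (hinv : ∀ k, L (Function.update (fun _ => o₀) 0 (inv k)) = k)
  (hρ : ∀ s a, kp L s (cp a) = Sum.elim id (fun f => kp L s (cn f)) (ρ s a))

include hρ in
theorem kp_inl (s : Fin 3 ⊕ Fin d) (z : Fin n) : kp L s (cp ((ρ s).symm (Sum.inl z))) = z := by
  rw [hρ, Equiv.apply_symm_apply]; rfl

include hρ in
theorem kp_inr (s : Fin 3 ⊕ Fin d) (f : Fin Q) :
    kp L s (cp ((ρ s).symm (Sum.inr f))) = kp L s (cn f) := by
  rw [hρ, Equiv.apply_symm_apply]; rfl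

theorem gad1_0 (e : Fin P ⊕ Fin Q) : gad L cp cn o₀ inv (Sum.inl e) 0 = o₀ := by
  simp [gad]

theorem gad1_1 (e : Fin P ⊕ Fin Q) : gad L cp cn o₀ inv (Sum.inl e) 1 = Sum.elim cp cn e 1 := by
  simp [gad]

theorem gad2_1 (e : Fin P ⊕ Fin Q) : gad L cp cn o₀ inv (Sum.inr e) 1 = o₀ := by
  simp [gad]

include hinv in
theorem gad2_L (e : Fin P ⊕ Fin Q) :
    L (gad L cp cn o₀ inv (Sum.inr e)) = L (Sum.elim cp cn e) := hinv _

include hinv hρ in
theorem hitO (s : Fin 3 ⊕ Fin d) (o : OI P Q) : ∃ ν : NI P Q,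
    kp L s (cN L cp cn o₀ inv ν) = kp L s (cO L cp cn o₀ inv o) ∧
      tN F ρ s ν = tO F ρ s o := by
  have g10 : ∀ e, gad L cp cn o₀ inv (Sum.inl e) 0 = o₀ := fun e => gad1_0 e
  have g11 : ∀ e, gad L cp cn o₀ inv (Sum.inl e) 1 = Sum.elim cp cn e 1 := fun e => gad1_1 e
  have g21 : ∀ e, gad L cp cn o₀ inv (Sum.inr e) 1 = o₀ := fun e => gad2_1 e
  have g2L : ∀ e, L (gad L cp cn o₀ inv (Sum.inr e)) = L (Sum.elim cp cn e) :=
    fun e => gad2_L hinv e
  match s with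
  | Sum.inl 0 =>
    rcases o with f | e | e
    · exact ⟨Sum.inl ((ρ (Sum.inl 0)).symm (Sum.inr f)), kp_inr ρ hρ (Sum.inl 0) f,
        congrArg (fun T : (Pm P Q → F) →ₗ[F] F => T.comp (pr F) + 0)
          (outer_inr F (ρ (Sum.inl 0)) _ f)⟩
    · exact ⟨Sum.inr (Sum.inl (sc P Q e)), (g10 (sc P Q e)).trans (g10 e).symm, rfl⟩
    · exact ⟨Sum.inr (Sum.inr e), rfl, rfl⟩
  | Sum.inl 1 =>
    rcases o with f | (a | f) | e
    · exact ⟨Sum.inr (Sum.inl (Sum.inr f)), g11 (Sum.inr f), rfl⟩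
    · exact ⟨Sum.inl a, (g11 (Sum.inl a)).symm, rfl⟩
    · refine ⟨Sum.inr (Sum.inl (Sum.inl ((ρ (Sum.inl 1)).symm (Sum.inr f)))), ?_,
        congrArg (fun T : (Pm P Q → F) →ₗ[F] F => T.comp (pr F) + 0)
          (outer_inr F (ρ (Sum.inl 1)) _ f)⟩
      exact (g11 (Sum.inl ((ρ (Sum.inl 1)).symm (Sum.inr f)))).trans
        ((kp_inr ρ hρ (Sum.inl 1) f).trans (g11 (Sum.inr f)).symm)
    · exact ⟨Sum.inr (Sum.inr (sc P Q e)), (g21 (sc P Q e)).trans (g21 e).symm, rfl⟩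
  | Sum.inl 2 =>
    rcases o with f | e | (a | f)
    · exact ⟨Sum.inr (Sum.inr (Sum.inr f)), g2L _, rfl⟩
    · exact ⟨Sum.inr (Sum.inl e), rfl, rfl⟩
    · exact ⟨Sum.inl a, (g2L (Sum.inl a)).symm, rfl⟩
    · refine ⟨Sum.inr (Sum.inr (Sum.inl ((ρ (Sum.inl 2)).symm (Sum.inr f)))), ?_,
        congrArg (fun T : (Pm P Q → F) →ₗ[F] F => T.comp (pr F) + 0)
          (outer_inr F (ρ (Sum.inl 2)) _ f)⟩
      exact (g2L _).trans
        ((kp_inr ρ hρ (Sum.inl 2) f).trans (g2L (Sum.inr f)).symm)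
  | Sum.inr k =>
    rcases o with f | e | e
    · exact ⟨Sum.inl ((ρ (Sum.inr k)).symm (Sum.inr f)), kp_inr ρ hρ (Sum.inr k) f,
        out_inr (ρ (Sum.inr k)) _ f⟩
    · exact ⟨Sum.inr (Sum.inl e), rfl, rfl⟩
    · exact ⟨Sum.inr (Sum.inr e), rfl, rfl⟩

include hinv hρ in
theorem hitZ (s : Fin 3 ⊕ Fin d) (z : Fin n) : ∃ ν : NI P Q,
    kp L s (cN L cp cn o₀ inv ν) = z ∧ ∀ v, tN F ρ s ν v = 0 := by
  have g10 : ∀ e, gad L cp cn o₀ inv (Sum.inl e) 0 = o₀ := fun e => gad1_0 e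
  have g11 : ∀ e, gad L cp cn o₀ inv (Sum.inl e) 1 = Sum.elim cp cn e 1 := fun e => gad1_1 e
  have g21 : ∀ e, gad L cp cn o₀ inv (Sum.inr e) 1 = o₀ := fun e => gad2_1 e
  have g2L : ∀ e, L (gad L cp cn o₀ inv (Sum.inr e)) = L (Sum.elim cp cn e) :=
    fun e => gad2_L hinv e
  match s with
  | Sum.inl 0 =>
    refine ⟨Sum.inl ((ρ (Sum.inl 0)).symm (Sum.inl z)), kp_inl ρ hρ (Sum.inl 0) z, fun v => ?_⟩
    have h := congrArg (fun T : (Pm P Q → F) →ₗ[F] F => (T.comp (pr F) + 0) v)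
      (outer_inl F (ρ (Sum.inl 0)) (fun f => co F (pX f)) z)
    refine h.trans ?_
    simp
  | Sum.inl 1 =>
    refine ⟨Sum.inr (Sum.inl (Sum.inl ((ρ (Sum.inl 1)).symm (Sum.inl z)))),
      (g11 (Sum.inl ((ρ (Sum.inl 1)).symm (Sum.inl z)))).trans (kp_inl ρ hρ (Sum.inl 1) z),
      fun v => ?_⟩
    have h := congrArg (fun T : (Pm P Q → F) →ₗ[F] F => (T.comp (pr F) + 0) v)
      (outer_inl F (ρ (Sum.inl 1)) (fun f => co F (pY f)) z)
    refine h.trans ?_
    simp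
  | Sum.inl 2 =>
    refine ⟨Sum.inr (Sum.inr (Sum.inl ((ρ (Sum.inl 2)).symm (Sum.inl z)))),
      (g2L _).trans (kp_inl ρ hρ (Sum.inl 2) z), fun v => ?_⟩
    have h := congrArg (fun T : (Pm P Q → F) →ₗ[F] F => (T.comp (pr F) + 0) v)
      (outer_inl F (ρ (Sum.inl 2)) (fun f => co F (pZ f)) z)
    refine h.trans ?_
    simp
  | Sum.inr k =>
    refine ⟨Sum.inl ((ρ (Sum.inr k)).symm (Sum.inl z)), kp_inl ρ hρ (Sum.inr k) z, fun v => ?_⟩
    have h := congrArg (fun T : (PM d P Q → F) →ₗ[F] F => T v)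
      (out_inl (ρ (Sum.inr k)) (fun f => ex F (Sum.inl (k, f))) z)
    refine h.trans ?_
    simp

end cells

end TH964.HC
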